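import Pool.Agent.H620R2.OmComb
import Pool.Agent.Helper227.CD.Base

set_option autoImplicit false

namespace Pool.Agent.H620R2.Om

open Pool.Agent.Helper227 Encodable Classical

/-- a prefix-free code for strings -/
def cc : List Bool → List Bool
  | [] => [false]
  | b :: σ => true :: b :: cc σ

/-- the prefix below which our programs are expected to appear -/
def piS (σ : List Bool) : List Bool := σ ++ cc σ

/-- A frame of the stack: starting time, exponent of the target, exponent of the radius of the
region in which it is valid, numerators (at the scale of the starting time) of the amount already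
pushed and of the approximation at the starting time. -/
abbrev Frame := ℕ × ℕ × ℕ × ℕ × ℕ

/-- starting time -/
def Fs (F : Frame) : ℕ := F.1
/-- exponent of the target -/
def Fn (F : Frame) : ℕ := F.2.1
/-- exponent of the radius -/
def Fr (F : Frame) : ℕ := F.2.2.1
/-- amount pushed before the start -/
def Fy (F : Frame) : ℕ := F.2.2.2.1
/-- approximation at the start -/
def Fb (F : Frame) : ℕ := F.2.2.2.2

/-- The data on which the strategy depends: approximations to the graph of the machine, to the
complement of the set, and a test. -/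
structure Data where
  Q : List Bool × List Bool → ℕ → Prop
  R : List Bool → ℕ → Prop
  G : ℕ × List Bool → Prop
  hQ : PrimrecRel Q
  hR : PrimrecRel R
  hG : PrimrecPred G
  mQ : ∀ a m n, m ≤ n → Q a m → Q a n
  mR : ∀ a m n, m ≤ n → R a m → R a n

variable (D : Data)

/-- weight (times `2 ^ t`) of `z` at stage `t`, not counting programs that extend `piS σ` -/
noncomputable def wN (σ : List Bool) (t : ℕ) (z : List Bool) : ℕ :=
  ((cands t).map fun p => if D.Q (p, z) t ∧ ¬ (p.take (piS σ).length = piS σ)
    then 2 ^ (t - p.length) else 0).sum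

/-- approximation without our own programs, times `2 ^ t` -/
noncomputable def BO (σ : List Bool) (t : ℕ) : ℕ :=
  ((cands t).map fun z => if D.R z t then 0 else wN D σ t z).sum

/-- exponent of the top target -/
def NN (σ : List Bool) : ℕ := (piS σ).length + 1
/-- number of levels -/
def KK (σ : List Bool) : ℕ := 2 ^ (NN σ + 2)
/-- exponent of epsilon -/
def ee (σ : List Bool) : ℕ := NN σ + 7

/-- the approximation is still in the region of the frame -/
def regOk (t b : ℕ) (F : Frame) : Prop :=
  b * 2 ^ Fr F ≤ Fb F * 2 ^ (t - Fs F) * 2 ^ Fr F + 2 ^ t ∧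
    Fb F * 2 ^ (t - Fs F) * 2 ^ Fr F ≤ b * 2 ^ Fr F + 2 ^ t

/-- the frame has reached its target -/
def compl (t Y : ℕ) (F : Frame) : Prop :=
  2 ^ t + Fy F * 2 ^ (t - Fs F) * 2 ^ Fn F ≤ Y * 2 ^ Fn F

/-- drop the outermost frame whose region has been left, and all inner frames -/
noncomputable def surv (t b : ℕ) (L : List Frame) : List Frame × Bool :=
  L.foldr (fun F acc => if acc.2 = true ∧ regOk t b F then (F :: acc.1, true)
    else (acc.1, false)) ([], true)

/-- value of a binary string -/
def val (ζ : List Bool) : ℕ := ζ.foldl (fun a b => 2 * a + b.toNat) 0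

/-- the approximation is close to the interval of `ζ` -/
def close (t b : ℕ) (ζ : List Bool) : Prop :=
  val ζ * 2 ^ t ≤ b * 2 ^ ζ.length + 2 ^ t ∧ b * 2 ^ ζ.length ≤ (val ζ + 2) * 2 ^ t

/-- exponent of the target of a sub-run -/
def subn (σ : List Bool) (F : Frame) (l : ℕ) : ℕ := Fn F + Fs F + 1 + l + ee σ

/-- `ζ` can be used for a sub-run -/
def tst (σ : List Bool) (t b : ℕ) (F : Frame) (ζ : List Bool) : Prop :=
  D.G (Fn F + Fs F + 7, ζ) ∧ close t b ζ ∧ subn σ F ζ.length ≤ t

/-- search for the first usable string -/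
noncomputable def srch (σ : List Bool) (t b : ℕ) (F : Frame) : Option (List Bool) :=
  (cands t)[(cands t).findIdx fun ζ => decide (tst D σ t b F ζ)]?

/-- one step of the strategy; the second component is the exponent of the push, if any -/
noncomputable def stepF (σ : List Bool) (t : ℕ) (S : ℕ × List Frame) :
    (ℕ × List Frame) × Option ℕ :=
  if (surv t (BO D σ t + S.1) S.2).2 = false then
    ((2 * S.1, (surv t (BO D σ t + S.1) S.2).1), none)
  else
    (S.2.head?).elim ((2 * S.1, []), none) fun F =>
      if compl t S.1 F then ((2 * S.1, S.2.tail), none)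
      else (srch D σ t (BO D σ t + S.1) F).elim ((2 * S.1, S.2), none) fun ζ =>
        if S.2.length = KK σ then
          ((2 * (S.1 + 2 ^ (t - subn σ F ζ.length)), S.2), some (subn σ F ζ.length))
        else ((2 * S.1, (t, subn σ F ζ.length, ζ.length, S.1, BO D σ t + S.1) :: S.2), none)

/-- the top frame -/
def topF (σ : List Bool) : Frame := (0, NN σ, 0, 0, 1)

/-- the state at time `t` -/
noncomputable def St (σ : List Bool) : ℕ → ℕ × List Frame
  | 0 => (0, [topF σ])
  | t + 1 => (stepF D σ t (St σ t)).1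

/-- the push at time `t` -/
noncomputable def push (σ : List Bool) (t : ℕ) : Option ℕ := (stepF D σ t (St D σ t)).2

/-! ### Primitive recursiveness -/

theorem primrec_pow2 : Primrec fun n : ℕ => 2 ^ n := by
  have h := primrec_pow.comp (Primrec.const 2) (Primrec.id (α := ℕ))
  exact h

theorem primrec_cc : Primrec cc := by
  have h : Primrec fun L : List Bool => L.foldr (fun b acc => true :: b :: acc) [false] :=
    Primrec.list_foldr (h := fun (_ : List Bool) (x : Bool × List Bool) => true :: x.1 :: x.2)
      Primrec.id (Primrec.const _) (Primrec.list_cons.comp (Primrec.const true)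
        (Primrec.list_cons.comp (Primrec.fst.comp Primrec.snd) (Primrec.snd.comp Primrec.snd)))
  refine h.of_eq fun L => ?_
  induction L with
  | nil => rfl
  | cons b L ih => simp only [List.foldr_cons, cc]; rw [ih]

theorem primrec_piS : Primrec piS := Primrec.list_append.comp Primrec.id primrec_cc

theorem primrec_wN : Primrec fun x : List Bool × ℕ × List Bool => wN D x.1 x.2.1 x.2.2 := by
  unfold wN
  refine primrec_list_sum.comp (Primrec.list_map (primrec_cands.comp
    (Primrec.fst.comp Primrec.snd)) ?_)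
  refine Primrec.ite (c := fun y : (List Bool × ℕ × List Bool) × List Bool =>
    D.Q (y.2, y.1.2.2) y.1.2.1 ∧ ¬ (y.2.take (piS y.1.1).length = piS y.1.1)) ?_ ?_
    (Primrec.const 0)
  · refine PrimrecPred.and ?_ (PrimrecPred.not ?_)
    · exact D.hQ.comp (Primrec.snd.pair (Primrec.snd.comp (Primrec.snd.comp Primrec.fst)))
        (Primrec.fst.comp (Primrec.snd.comp Primrec.fst))
    · have h1 : Primrec fun y : (List Bool × ℕ × List Bool) × List Bool => piS y.1.1 :=
        primrec_piS.comp (Primrec.fst.comp Primrec.fst)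
      exact Primrec.eq.comp (Primrec.list_take.comp (Primrec.list_length.comp h1) Primrec.snd) h1
  · exact primrec_pow2.comp (Primrec.nat_sub.comp (Primrec.fst.comp (Primrec.snd.comp Primrec.fst))
      (Primrec.list_length.comp Primrec.snd))

theorem primrec_BO : Primrec fun x : List Bool × ℕ => BO D x.1 x.2 := by
  unfold BO
  refine primrec_list_sum.comp (Primrec.list_map (primrec_cands.comp Primrec.snd) ?_)
  refine Primrec.ite (c := fun y : (List Bool × ℕ) × List Bool => D.R y.2 y.1.2) ?_
    (Primrec.const 0) ?_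
  · exact D.hR.comp Primrec.snd (Primrec.snd.comp Primrec.fst)
  · exact (primrec_wN D).comp ((Primrec.fst.comp Primrec.fst).pair
      ((Primrec.snd.comp Primrec.fst).pair Primrec.snd))

theorem primrec_NN : Primrec NN :=
  Primrec.succ.comp (Primrec.list_length.comp primrec_piS)

theorem primrec_KK : Primrec KK :=
  primrec_pow2.comp (Primrec.nat_add.comp primrec_NN (Primrec.const 2))

theorem primrec_ee : Primrec ee := Primrec.nat_add.comp primrec_NN (Primrec.const 7)

theorem primrec_Fs : Primrec Fs := Primrec.fst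
theorem primrec_Fn : Primrec Fn := Primrec.fst.comp Primrec.snd
theorem primrec_Fr : Primrec Fr := Primrec.fst.comp (Primrec.snd.comp Primrec.snd)
theorem primrec_Fy : Primrec Fy :=
  Primrec.fst.comp (Primrec.snd.comp (Primrec.snd.comp Primrec.snd))
theorem primrec_Fb : Primrec Fb :=
  Primrec.snd.comp (Primrec.snd.comp (Primrec.snd.comp Primrec.snd))

theorem primrec_regOk : PrimrecPred fun x : (ℕ × ℕ) × Frame => regOk x.1.1 x.1.2 x.2 := by
  unfold regOk
  have e1 : Primrec fun x : (ℕ × ℕ) × Frame => 2 ^ Fr x.2 :=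
    primrec_pow2.comp (primrec_Fr.comp Primrec.snd)
  have e2 : Primrec fun x : (ℕ × ℕ) × Frame => x.1.2 * 2 ^ Fr x.2 :=
    Primrec.nat_mul.comp (Primrec.snd.comp Primrec.fst) e1
  have e3 : Primrec fun x : (ℕ × ℕ) × Frame => 2 ^ x.1.1 :=
    primrec_pow2.comp (Primrec.fst.comp Primrec.fst)
  have e4 : Primrec fun x : (ℕ × ℕ) × Frame => Fb x.2 * 2 ^ (x.1.1 - Fs x.2) * 2 ^ Fr x.2 :=
    Primrec.nat_mul.comp (Primrec.nat_mul.comp (primrec_Fb.comp Primrec.snd)
      (primrec_pow2.comp (Primrec.nat_sub.comp (Primrec.fst.comp Primrec.fst)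
        (primrec_Fs.comp Primrec.snd)))) e1
  exact PrimrecPred.and (Primrec.nat_le.comp e2 (Primrec.nat_add.comp e4 e3))
    (Primrec.nat_le.comp e4 (Primrec.nat_add.comp e2 e3))

theorem primrec_compl : PrimrecPred fun x : (ℕ × ℕ) × Frame => compl x.1.1 x.1.2 x.2 := by
  unfold compl
  have e1 : Primrec fun x : (ℕ × ℕ) × Frame => 2 ^ Fn x.2 :=
    primrec_pow2.comp (primrec_Fn.comp Primrec.snd)
  have e3 : Primrec fun x : (ℕ × ℕ) × Frame => 2 ^ x.1.1 :=
    primrec_pow2.comp (Primrec.fst.comp Primrec.fst)
  have e4 : Primrec fun x : (ℕ × ℕ) × Frame => Fy x.2 * 2 ^ (x.1.1 - Fs x.2) * 2 ^ Fn x.2 :=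
    Primrec.nat_mul.comp (Primrec.nat_mul.comp (primrec_Fy.comp Primrec.snd)
      (primrec_pow2.comp (Primrec.nat_sub.comp (Primrec.fst.comp Primrec.fst)
        (primrec_Fs.comp Primrec.snd)))) e1
  exact Primrec.nat_le.comp (Primrec.nat_add.comp e3 e4)
    (Primrec.nat_mul.comp (Primrec.snd.comp Primrec.fst) e1)

theorem primrec_surv : Primrec fun x : (ℕ × ℕ) × List Frame => surv x.1.1 x.1.2 x.2 := by
  unfold surv
  refine Primrec.list_foldr (h := fun (x : (ℕ × ℕ) × List Frame) (y : Frame × List Frame × Bool) =>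
    if y.2.2 = true ∧ regOk x.1.1 x.1.2 y.1 then (y.1 :: y.2.1, true) else (y.2.1, false))
    Primrec.snd (Primrec.const _) ?_
  refine Primrec.ite ?_ ?_ ?_
  · refine PrimrecPred.and ?_ ?_
    · exact Primrec.eq.comp (Primrec.snd.comp (Primrec.snd.comp Primrec.snd)) (Primrec.const true)
    · exact primrec_regOk.comp ((Primrec.fst.comp Primrec.fst).pair (Primrec.fst.comp Primrec.snd))
  · exact (Primrec.list_cons.comp (Primrec.fst.comp Primrec.snd)
      (Primrec.fst.comp (Primrec.snd.comp Primrec.snd))).pair (Primrec.const true)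
  · exact (Primrec.fst.comp (Primrec.snd.comp Primrec.snd)).pair (Primrec.const false)

theorem primrec_val : Primrec val := by
  unfold val
  refine Primrec.list_foldl (h := fun (_ : List Bool) (x : ℕ × Bool) => 2 * x.1 + x.2.toNat)
    Primrec.id (Primrec.const 0) ?_
  refine Primrec.nat_add.comp (Primrec.nat_mul.comp (Primrec.const 2)
    (Primrec.fst.comp Primrec.snd)) ?_
  exact (Primrec.dom_bool Bool.toNat).comp (Primrec.snd.comp Primrec.snd)

theorem primrec_close : PrimrecPred fun x : (ℕ × ℕ) × List Bool => close x.1.1 x.1.2 x.2 := by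
  unfold close
  have e1 : Primrec fun x : (ℕ × ℕ) × List Bool => x.1.2 * 2 ^ x.2.length :=
    Primrec.nat_mul.comp (Primrec.snd.comp Primrec.fst)
      (primrec_pow2.comp (Primrec.list_length.comp Primrec.snd))
  have e2 : Primrec fun x : (ℕ × ℕ) × List Bool => 2 ^ x.1.1 :=
    primrec_pow2.comp (Primrec.fst.comp Primrec.fst)
  have e3 : Primrec fun x : (ℕ × ℕ) × List Bool => val x.2 := primrec_val.comp Primrec.snd
  exact PrimrecPred.and (Primrec.nat_le.comp (Primrec.nat_mul.comp e3 e2)
    (Primrec.nat_add.comp e1 e2)) (Primrec.nat_le.comp e1 (Primrec.nat_mul.comp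
      (Primrec.nat_add.comp e3 (Primrec.const 2)) e2))

theorem primrec_subn : Primrec fun x : List Bool × Frame × ℕ => subn x.1 x.2.1 x.2.2 := by
  unfold subn
  have e1 : Primrec fun x : List Bool × Frame × ℕ => Fn x.2.1 :=
    primrec_Fn.comp (Primrec.fst.comp Primrec.snd)
  have e2 : Primrec fun x : List Bool × Frame × ℕ => Fs x.2.1 :=
    primrec_Fs.comp (Primrec.fst.comp Primrec.snd)
  exact Primrec.nat_add.comp (Primrec.nat_add.comp (Primrec.succ.comp (Primrec.nat_add.comp e1 e2))
    (Primrec.snd.comp Primrec.snd)) (primrec_ee.comp Primrec.fst)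

theorem primrec_tst : PrimrecPred fun x : (List Bool × (ℕ × ℕ) × Frame) × List Bool =>
    tst D x.1.1 x.1.2.1.1 x.1.2.1.2 x.1.2.2 x.2 := by
  unfold tst
  have e0 : Primrec fun x : (List Bool × (ℕ × ℕ) × Frame) × List Bool => x.1.2.2 :=
    Primrec.snd.comp (Primrec.snd.comp Primrec.fst)
  refine PrimrecPred.and ?_ (PrimrecPred.and ?_ ?_)
  · exact D.hG.comp ((Primrec.nat_add.comp (Primrec.nat_add.comp (primrec_Fn.comp e0)
      (primrec_Fs.comp e0)) (Primrec.const 7)).pair Primrec.snd)
  · exact primrec_close.comp ((Primrec.fst.comp (Primrec.snd.comp Primrec.fst)).pair Primrec.snd)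
  · exact Primrec.nat_le.comp (primrec_subn.comp ((Primrec.fst.comp Primrec.fst).pair
      (e0.pair (Primrec.list_length.comp Primrec.snd))))
      (Primrec.fst.comp (Primrec.fst.comp (Primrec.snd.comp Primrec.fst)))

theorem primrec_srch : Primrec fun x : List Bool × (ℕ × ℕ) × Frame =>
    srch D x.1 x.2.1.1 x.2.1.2 x.2.2 := by
  unfold srch
  have e1 : Primrec fun x : List Bool × (ℕ × ℕ) × Frame => cands x.2.1.1 :=
    primrec_cands.comp (Primrec.fst.comp (Primrec.fst.comp Primrec.snd))
  exact Primrec.list_getElem?.comp e1 (Primrec.list_findIdx (f := fun x : List Bool × (ℕ × ℕ) ×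
    Frame => cands x.2.1.1) (p := fun x ζ => decide (tst D x.1 x.2.1.1 x.2.1.2 x.2.2 ζ)) e1
    (primrec_tst D).decide)

theorem primrec_elim {α β γ : Type} [Primcodable α] [Primcodable β] [Primcodable γ]
    {o : α → Option β} {f : α → γ} {g : α → β → γ} (ho : Primrec o) (hf : Primrec f)
    (hg : Primrec₂ g) : Primrec fun a => (o a).elim (f a) (g a) := by
  refine (Primrec.option_casesOn ho hf hg).of_eq fun a => ?_
  cases o a <;> rfl

theorem primrec_stepF : Primrec fun x : (List Bool × ℕ) × (ℕ × List Frame) =>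
    stepF D x.1.1 x.1.2 x.2 := by
  unfold stepF
  have eY : Primrec fun x : (List Bool × ℕ) × (ℕ × List Frame) => x.2.1 :=
    Primrec.fst.comp Primrec.snd
  have eL : Primrec fun x : (List Bool × ℕ) × (ℕ × List Frame) => x.2.2 :=
    Primrec.snd.comp Primrec.snd
  have et : Primrec fun x : (List Bool × ℕ) × (ℕ × List Frame) => x.1.2 :=
    Primrec.snd.comp Primrec.fst
  have eσ : Primrec fun x : (List Bool × ℕ) × (ℕ × List Frame) => x.1.1 :=
    Primrec.fst.comp Primrec.fst
  have eB : Primrec fun x : (List Bool × ℕ) × (ℕ × List Frame) => BO D x.1.1 x.1.2 + x.2.1 :=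
    Primrec.nat_add.comp ((primrec_BO D).comp Primrec.fst) eY
  have eY2 : Primrec fun x : (List Bool × ℕ) × (ℕ × List Frame) => 2 * x.2.1 :=
    Primrec.nat_mul.comp (Primrec.const 2) eY
  have eS : Primrec fun x : (List Bool × ℕ) × (ℕ × List Frame) =>
      surv x.1.2 (BO D x.1.1 x.1.2 + x.2.1) x.2.2 := primrec_surv.comp ((et.pair eB).pair eL)
  refine Primrec.ite (Primrec.eq.comp (Primrec.snd.comp eS) (Primrec.const false))
    ((eY2.pair (Primrec.fst.comp eS)).pair (Primrec.const none)) ?_
  refine primrec_elim (Primrec.list_head?.comp eL) ((eY2.pair (Primrec.const [])).pair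
    (Primrec.const none)) ?_
  have f1 : Primrec fun y : ((List Bool × ℕ) × (ℕ × List Frame)) × Frame => y.1 := Primrec.fst
  refine Primrec.ite (c := fun y : ((List Bool × ℕ) × (ℕ × List Frame)) × Frame =>
    compl y.1.1.2 y.1.2.1 y.2) ?_ ?_ ?_
  · exact primrec_compl.comp (((et.comp f1).pair (eY.comp f1)).pair Primrec.snd)
  · exact ((eY2.comp f1).pair (Primrec.list_tail.comp (eL.comp f1))).pair (Primrec.const none)
  · refine primrec_elim (o := fun y : ((List Bool × ℕ) × (ℕ × List Frame)) × Frame =>
      srch D y.1.1.1 y.1.1.2 (BO D y.1.1.1 y.1.1.2 + y.1.2.1) y.2) ?_ ?_ ?_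
    · exact (primrec_srch D).comp ((eσ.comp f1).pair (((et.comp f1).pair (eB.comp f1)).pair
        Primrec.snd))
    · exact ((eY2.comp f1).pair (eL.comp f1)).pair (Primrec.const none)
    · have g1 : Primrec fun w : (((List Bool × ℕ) × (ℕ × List Frame)) × Frame) × List Bool =>
          w.1.1 := Primrec.fst.comp Primrec.fst
      have g2 : Primrec fun w : (((List Bool × ℕ) × (ℕ × List Frame)) × Frame) × List Bool =>
          w.2.length := Primrec.list_length.comp Primrec.snd
      have g3 : Primrec fun w : (((List Bool × ℕ) × (ℕ × List Frame)) × Frame) × List Bool =>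
          subn w.1.1.1.1 w.1.2 w.2.length :=
        primrec_subn.comp ((eσ.comp g1).pair ((Primrec.snd.comp Primrec.fst).pair g2))
      refine Primrec.ite (c := fun w : (((List Bool × ℕ) × (ℕ × List Frame)) × Frame) ×
        List Bool => w.1.1.2.2.length = KK w.1.1.1.1) ?_ ?_ ?_
      · exact Primrec.eq.comp (Primrec.list_length.comp (eL.comp g1)) (primrec_KK.comp
          (eσ.comp g1))
      · refine Primrec.pair (Primrec.pair ?_ (eL.comp g1)) (Primrec.option_some.comp g3)
        exact Primrec.nat_mul.comp (Primrec.const 2) (Primrec.nat_add.comp (eY.comp g1)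
          (primrec_pow2.comp (Primrec.nat_sub.comp (et.comp g1) g3)))
      · refine Primrec.pair (Primrec.pair (eY2.comp g1) ?_) (Primrec.const none)
        refine Primrec.list_cons.comp ?_ (eL.comp g1)
        exact (et.comp g1).pair (g3.pair (g2.pair ((eY.comp g1).pair (eB.comp g1))))

attribute [local irreducible] stepF

theorem primrec_topF : Primrec topF :=
  (Primrec.const 0).pair (primrec_NN.pair (Primrec.const (0, 0, 1)))

theorem primrec_St : Primrec fun x : List Bool × ℕ => St D x.1 x.2 := by
  have h1 : Primrec fun x : List Bool × ℕ => ((0, [topF x.1]) : ℕ × List Frame) :=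
    (Primrec.const 0).pair (Primrec.list_cons.comp (primrec_topF.comp Primrec.fst)
      (Primrec.const []))
  have h2 : Primrec fun y : (List Bool × ℕ) × (ℕ × (ℕ × List Frame)) =>
      (stepF D y.1.1 y.2.1 y.2.2).1 := by
    have h3 : Primrec fun y : (List Bool × ℕ) × (ℕ × (ℕ × List Frame)) =>
        (((y.1.1, y.2.1), y.2.2) : (List Bool × ℕ) × (ℕ × List Frame)) :=
      ((Primrec.fst.comp Primrec.fst).pair (Primrec.fst.comp Primrec.snd)).pair
        (Primrec.snd.comp Primrec.snd)
    have h4 : Primrec fun z : (List Bool × ℕ) × (ℕ × List Frame) => (stepF D z.1.1 z.1.2 z.2).1 :=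
      Primrec.fst.comp (primrec_stepF D)
    exact h4.comp h3
  have h : Primrec fun x : List Bool × ℕ => (Nat.rec ((0, [topF x.1]) : ℕ × List Frame)
      (fun t S => (stepF D x.1 t S).1) x.2 : ℕ × List Frame) :=
    Primrec.nat_rec' (f := fun x : List Bool × ℕ => x.2)
      (g := fun x => ((0, [topF x.1]) : ℕ × List Frame))
      (h := fun x p => (stepF D x.1 p.1 p.2).1) Primrec.snd h1 h2
  refine h.of_eq fun x => ?_
  obtain ⟨σ, t⟩ := x
  induction t with
  | zero => rfl
  | succ t ih =>
    simp only [St]
    simp only at ih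
    rw [← ih]

theorem primrec_push : Primrec fun x : List Bool × ℕ => push D x.1 x.2 :=
  Primrec.snd.comp ((primrec_stepF D).comp (Primrec.id.pair (primrec_St D)))

end Pool.Agent.H620R2.Om
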