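import Mathlib

set_option autoImplicit false

namespace Pool.Agent.H620R2.Om

open Finset Classical

/-- An abstract weight process. `w t z` is the weight of `z` at time `t` (frozen after the removal
of `z`), `alive t z` says that `z` has not been removed, `Y t` is the weight spent by us. -/
structure Proc (ι : Type) where
  S : Finset ι
  w : ℕ → ι → ℝ
  alive : ℕ → ι → Prop
  Y : ℕ → ℝ
  w_nonneg : ∀ t z, 0 ≤ w t z
  w_mono' : ∀ t z, w t z ≤ w (t + 1) z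
  alive_anti' : ∀ t z, alive (t + 1) z → alive t z
  frozen' : ∀ t z, ¬ alive t z → w (t + 1) z = w t z
  sum_le : ∀ t, ∑ z ∈ S, w t z ≤ 1
  gran : ∀ t z, w t z = 0 ∨ (1 / 2 : ℝ) ^ t ≤ w t z
  Y_mono' : ∀ t, Y t ≤ Y (t + 1)
  Y_nonneg : ∀ t, 0 ≤ Y t
  Y_le : ∀ t, Y t ≤ 1

namespace Proc

variable {ι : Type} (P : Proc ι)

theorem w_mono {s t : ℕ} (h : s ≤ t) (z : ι) : P.w s z ≤ P.w t z :=
  monotone_nat_of_le_succ (f := fun t => P.w t z) (fun t => P.w_mono' t z) h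

theorem Y_mono {s t : ℕ} (h : s ≤ t) : P.Y s ≤ P.Y t :=
  monotone_nat_of_le_succ P.Y_mono' h

theorem alive_anti {s t : ℕ} (h : s ≤ t) {z : ι} (ha : P.alive t z) : P.alive s z := by
  induction h with
  | refl => exact ha
  | step _ ih => exact ih (P.alive_anti' _ _ ha)

theorem frozen {s t : ℕ} (h : s ≤ t) {z : ι} (ha : ¬ P.alive s z) : P.w t z = P.w s z := by
  induction h with
  | refl => rfl
  | @step m hm ih => rw [P.frozen' m z (fun h => ha (P.alive_anti hm h)), ih]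

/-- the approximation to the real -/
noncomputable def b (t : ℕ) : ℝ := P.Y t + ∑ z ∈ P.S with P.alive t z, P.w t z

/-- the strings that are removed between `s` and `t` -/
noncomputable def rem (s t : ℕ) : Finset ι := P.S.filter fun z => P.alive s z ∧ ¬ P.alive t z

/-- weight created after `s` on strings that are removed between `s` and `t` -/
noncomputable def c (s t : ℕ) : ℝ := ∑ z ∈ P.rem s t, (P.w t z - P.w s z)

/-- number of heavy strings removed -/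
noncomputable def H (θ : ℝ) (s t : ℕ) : ℕ := ((P.rem s t).filter fun z => θ < P.w t z).card

/-- total activity -/
noncomputable def act (t : ℕ) : ℝ :=
  P.Y t + ∑ z ∈ P.S, P.w t z + ∑ z ∈ P.S with ¬ P.alive t z, P.w t z

theorem mem_rem {s t : ℕ} {z : ι} : z ∈ P.rem s t ↔ z ∈ P.S ∧ P.alive s z ∧ ¬ P.alive t z := by
  simp [rem]

theorem rem_self (s : ℕ) : P.rem s s = ∅ := by
  ext z; simp [mem_rem]

theorem rem_union {s t u : ℕ} (h1 : s ≤ t) (h2 : t ≤ u) :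
    P.rem s u = P.rem s t ∪ P.rem t u := by
  ext z
  simp only [mem_union, mem_rem]
  constructor
  · rintro ⟨h3, h4, h5⟩
    by_cases h6 : P.alive t z
    · exact Or.inr ⟨h3, h6, h5⟩
    · exact Or.inl ⟨h3, h4, h6⟩
  · rintro (⟨h3, h4, h5⟩ | ⟨h3, h4, h5⟩)
    · exact ⟨h3, h4, fun h => h5 (P.alive_anti h2 h)⟩
    · exact ⟨h3, P.alive_anti h1 h4, h5⟩

theorem rem_disj (s t u : ℕ) : Disjoint (P.rem s t) (P.rem t u) := by
  rw [Finset.disjoint_left]
  intro z h1 h2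
  rw [mem_rem] at h1 h2
  exact h1.2.2 h2.2.1

theorem c_self (s : ℕ) : P.c s s = 0 := by simp [c, rem_self]

theorem c_nonneg {s t : ℕ} (h : s ≤ t) : 0 ≤ P.c s t :=
  Finset.sum_nonneg fun z _ => sub_nonneg.2 (P.w_mono h z)

theorem c_add {s t u : ℕ} (h1 : s ≤ t) (h2 : t ≤ u) :
    P.c s u = P.c s t + P.c t u + ∑ z ∈ P.rem t u, (P.w t z - P.w s z) := by
  unfold c
  rw [P.rem_union h1 h2, Finset.sum_union (P.rem_disj s t u), add_assoc, ← Finset.sum_add_distrib]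
  congr 1
  · refine Finset.sum_congr rfl fun z hz => ?_
    rw [mem_rem] at hz
    rw [P.frozen h2 hz.2.2]
  · refine Finset.sum_congr rfl fun z _ => ?_
    ring

theorem c_le_one {s t : ℕ} : P.c s t ≤ 1 := by
  refine le_trans ?_ (P.sum_le t)
  unfold c
  refine le_trans (Finset.sum_le_sum (g := fun z => P.w t z) fun z _ => ?_)
    (Finset.sum_le_sum_of_subset_of_nonneg (Finset.filter_subset _ _) fun z _ _ => P.w_nonneg t z)
  have := P.w_nonneg s z
  linarith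

theorem H_add {θ : ℝ} {s t u : ℕ} (h1 : s ≤ t) (h2 : t ≤ u) :
    P.H θ s u = P.H θ s t + P.H θ t u := by
  unfold H
  rw [P.rem_union h1 h2, Finset.filter_union, Finset.card_union_of_disjoint]
  · congr 2
    refine Finset.filter_congr fun z hz => ?_
    rw [mem_rem] at hz
    rw [P.frozen h2 hz.2.2]
  · exact Finset.disjoint_filter_filter (P.rem_disj s t u)

theorem H_le {θ : ℝ} {s t : ℕ} : θ * P.H θ s t ≤ 1 := by
  refine le_trans ?_ (P.sum_le t)
  have h1 : θ * P.H θ s t = ∑ _z ∈ (P.rem s t).filter (fun z => θ < P.w t z), θ := by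
    rw [Finset.sum_const, nsmul_eq_mul, mul_comm]; rfl
  rw [h1]
  refine le_trans (Finset.sum_le_sum (g := fun z => P.w t z) fun z hz => ?_)
    (Finset.sum_le_sum_of_subset_of_nonneg ?_ fun z _ _ => P.w_nonneg t z)
  · exact (Finset.mem_filter.1 hz).2.le
  · exact (Finset.filter_subset _ _).trans (Finset.filter_subset _ _)

theorem sum_alive_split {s t : ℕ} (h : s ≤ t) (f : ι → ℝ) :
    ∑ z ∈ P.S with P.alive s z, f z = ∑ z ∈ P.S with P.alive t z, f z + ∑ z ∈ P.rem s t, f z := by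
  have h1 : (P.S.filter fun z => P.alive s z) = (P.S.filter fun z => P.alive t z) ∪ P.rem s t := by
    ext z
    simp only [mem_union, mem_rem, mem_filter]
    constructor
    · rintro ⟨h3, h4⟩
      by_cases h6 : P.alive t z
      · exact Or.inl ⟨h3, h6⟩
      · exact Or.inr ⟨h3, h4, h6⟩
    · rintro (⟨h3, h4⟩ | ⟨h3, h4, h5⟩)
      · exact ⟨h3, P.alive_anti h h4⟩
      · exact ⟨h3, h4⟩
  rw [h1, Finset.sum_union]
  rw [Finset.disjoint_left]
  intro z h2 h3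
  rw [mem_rem] at h3
  exact h3.2.2 (Finset.mem_filter.1 h2).2

theorem b_ge {s t : ℕ} (h : s ≤ t) :
    P.b s + (P.Y t - P.Y s) - ∑ z ∈ P.rem s t, P.w s z ≤ P.b t := by
  unfold b
  rw [P.sum_alive_split h (fun z => P.w s z)]
  have : ∑ z ∈ P.S with P.alive t z, P.w s z ≤ ∑ z ∈ P.S with P.alive t z, P.w t z :=
    Finset.sum_le_sum fun z _ => P.w_mono h z
  linarith

theorem act_le {t : ℕ} : P.act t ≤ 3 := by
  unfold act
  have h1 := P.Y_le t
  have h2 := P.sum_le t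
  have h3 : ∑ z ∈ P.S with ¬ P.alive t z, P.w t z ≤ ∑ z ∈ P.S, P.w t z :=
    Finset.sum_le_sum_of_subset_of_nonneg (Finset.filter_subset _ _) fun z _ _ => P.w_nonneg t z
  linarith

theorem act_nonneg {t : ℕ} : 0 ≤ P.act t := by
  unfold act
  have h1 := P.Y_nonneg t
  have h2 : 0 ≤ ∑ z ∈ P.S, P.w t z := Finset.sum_nonneg fun z _ => P.w_nonneg t z
  have h3 : 0 ≤ ∑ z ∈ P.S with ¬ P.alive t z, P.w t z :=
    Finset.sum_nonneg fun z _ => P.w_nonneg t z
  linarith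

theorem act_sub {s t : ℕ} (h : s ≤ t) : |P.b t - P.b s| ≤ P.act t - P.act s := by
  have e1 : ∑ z ∈ P.S with ¬ P.alive t z, P.w t z =
      ∑ z ∈ P.S with ¬ P.alive s z, P.w s z + ∑ z ∈ P.rem s t, P.w t z := by
    have h1 : (P.S.filter fun z => ¬ P.alive t z) = (P.S.filter fun z => ¬ P.alive s z) ∪ P.rem s t := by
      ext z
      simp only [mem_union, mem_rem, mem_filter]
      constructor
      · rintro ⟨h3, h4⟩
        by_cases h6 : P.alive s z
        · exact Or.inr ⟨h3, h6, h4⟩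
        · exact Or.inl ⟨h3, h6⟩
      · rintro (⟨h3, h4⟩ | ⟨h3, h4, h5⟩)
        · exact ⟨h3, fun h' => h4 (P.alive_anti h h')⟩
        · exact ⟨h3, h5⟩
    rw [h1, Finset.sum_union]
    · congr 1
      refine Finset.sum_congr rfl fun z hz => ?_
      exact P.frozen h (Finset.mem_filter.1 hz).2
    · rw [Finset.disjoint_left]
      intro z h2 h3
      rw [mem_rem] at h3
      exact (Finset.mem_filter.1 h2).2 h3.2.1
  have e2 := P.sum_alive_split h (fun z => P.w s z)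
  have e3 : ∑ z ∈ P.S, P.w t z - ∑ z ∈ P.S, P.w s z = ∑ z ∈ P.S, (P.w t z - P.w s z) := by
    rw [Finset.sum_sub_distrib]
  have e4 : ∑ z ∈ P.S with P.alive t z, P.w t z - ∑ z ∈ P.S with P.alive t z, P.w s z =
      ∑ z ∈ P.S with P.alive t z, (P.w t z - P.w s z) := by
    rw [Finset.sum_sub_distrib]
  have e5 : ∑ z ∈ P.S with P.alive t z, (P.w t z - P.w s z) ≤ ∑ z ∈ P.S, (P.w t z - P.w s z) :=
    Finset.sum_le_sum_of_subset_of_nonneg (Finset.filter_subset _ _)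
      fun z _ _ => sub_nonneg.2 (P.w_mono h z)
  have e6 : 0 ≤ ∑ z ∈ P.S with P.alive t z, (P.w t z - P.w s z) :=
    Finset.sum_nonneg fun z _ => sub_nonneg.2 (P.w_mono h z)
  have e7 : 0 ≤ ∑ z ∈ P.rem s t, P.w s z := Finset.sum_nonneg fun z _ => P.w_nonneg s z
  have e8 : ∑ z ∈ P.rem s t, P.w s z ≤ ∑ z ∈ P.rem s t, P.w t z :=
    Finset.sum_le_sum fun z _ => P.w_mono h z
  have e9 := P.Y_mono h
  unfold b act
  rw [abs_le]
  constructor <;> linarith

/-- properties of the function that measures the part of the test below a point -/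
structure Phi (φ : ℝ → ℝ) (m : ℝ) : Prop where
  mono : Monotone φ
  lip : ∀ y y', y' ≤ y → φ y - φ y' ≤ y - y'
  nonneg : ∀ y, 0 ≤ φ y
  le : ∀ y, φ y ≤ m

variable {P}

/-- the light part -/
theorem light_zero {s t : ℕ} {z : ι} (h : s ≤ t) (h1 : P.w t z ≤ (1 / 2) ^ (s + 1)) :
    P.w s z = 0 := by
  rcases P.gran s z with h2 | h2
  · exact h2
  · exfalso
    have h3 := P.w_mono h z
    have h4 : (1 / 2 : ℝ) ^ (s + 1) < (1 / 2) ^ s :=
      pow_lt_pow_right_of_lt_one₀ (by norm_num) (by norm_num) (Nat.lt_succ_self s)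
    linarith

theorem stepA {φ : ℝ → ℝ} {m : ℝ} (hφ : Phi φ m) {s t u : ℕ} (h1 : s ≤ t) (h2 : t ≤ u) :
    φ (P.b t) - φ (P.b u) - m * P.H ((1 / 2) ^ (s + 1)) t u ≤ P.c s u - P.c s t := by
  have hm : 0 ≤ m := (hφ.nonneg 0).trans (hφ.le 0)
  have e1 : P.c s u - P.c s t = ∑ z ∈ P.rem t u, (P.w u z - P.w s z) := by
    rw [P.c_add h1 h2]
    unfold c
    rw [add_assoc, add_sub_cancel_left, ← Finset.sum_add_distrib]
    exact Finset.sum_congr rfl fun z _ => by ring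
  set L := (P.rem t u).filter fun z => P.w u z ≤ (1 / 2) ^ (s + 1) with hL
  set Hs := (P.rem t u).filter fun z => (1 / 2 : ℝ) ^ (s + 1) < P.w u z with hHs
  have e2 : P.rem t u = L ∪ Hs := by
    ext z
    simp only [hL, hHs, mem_union, mem_filter]
    constructor
    · intro h
      rcases le_or_gt (P.w u z) ((1 / 2) ^ (s + 1)) with h3 | h3
      · exact Or.inl ⟨h, h3⟩
      · exact Or.inr ⟨h, h3⟩
    · rintro (h | h) <;> exact h.1
  have e3 : Disjoint L Hs := by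
    rw [Finset.disjoint_left]
    intro z h3 h4
    exact absurd (mem_filter.1 h4).2 (not_lt.2 (mem_filter.1 h3).2)
  have e4 : ∑ z ∈ L, P.w t z ≤ P.c s u - P.c s t := by
    rw [e1, e2, Finset.sum_union e3]
    have h3 : ∑ z ∈ L, P.w t z ≤ ∑ z ∈ L, (P.w u z - P.w s z) := by
      refine Finset.sum_le_sum fun z hz => ?_
      rw [light_zero (h1.trans h2) (mem_filter.1 hz).2, sub_zero]
      exact P.w_mono h2 z
    have h4 : 0 ≤ ∑ z ∈ Hs, (P.w u z - P.w s z) :=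
      Finset.sum_nonneg fun z _ => sub_nonneg.2 (P.w_mono (h1.trans h2) z)
    linarith
  have e5 := P.b_ge h2
  have e6 := P.Y_mono h2
  have e7 : ∑ z ∈ P.rem t u, P.w t z = ∑ z ∈ L, P.w t z + ∑ z ∈ Hs, P.w t z := by
    rw [e2, Finset.sum_union e3]
  have e8 : 0 ≤ ∑ z ∈ L, P.w t z := Finset.sum_nonneg fun z _ => P.w_nonneg t z
  have e9 : φ (P.b t) - φ (P.b t - ∑ z ∈ L, P.w t z) ≤ ∑ z ∈ L, P.w t z := by
    have := hφ.lip (P.b t) (P.b t - ∑ z ∈ L, P.w t z) (by linarith)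
    linarith
  by_cases hne : Hs = ∅
  · have h3 : P.H ((1 / 2) ^ (s + 1)) t u = 0 := by
      unfold H; rw [← hHs, hne]; rfl
    rw [h3]
    rw [hne, Finset.sum_empty, add_zero] at e7
    have h4 : φ (P.b t - ∑ z ∈ L, P.w t z) ≤ φ (P.b u) := hφ.mono (by linarith)
    push_cast
    linarith
  · have h3 : 1 ≤ P.H ((1 / 2) ^ (s + 1)) t u := by
      unfold H; rw [← hHs]
      exact Finset.card_pos.2 (Finset.nonempty_iff_ne_empty.2 hne)
    have h4 : m ≤ m * P.H ((1 / 2) ^ (s + 1)) t u := by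
      have : (1 : ℝ) ≤ P.H ((1 / 2) ^ (s + 1)) t u := by exact_mod_cast h3
      nlinarith
    have h5 := hφ.le (P.b t - ∑ z ∈ L, P.w t z)
    have h6 := hφ.nonneg (P.b u)
    linarith

/-- a good sub-run -/
theorem stepG {φ : ℝ → ℝ} {s t u : ℕ} (h1 : s ≤ t) (h2 : t ≤ u)
    (hH : P.H ((1 / 2) ^ (s + 1)) t u = 0) (hφ : φ (P.b u) - φ (P.b t) = P.b u - P.b t) :
    P.c t u + (P.Y u - P.Y t) + φ (P.b t) - φ (P.b u) ≤ P.c s u - P.c s t := by
  rw [P.c_add h1 h2]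
  have h3 : ∑ z ∈ P.rem t u, (P.w t z - P.w s z) = ∑ z ∈ P.rem t u, P.w t z := by
    refine Finset.sum_congr rfl fun z hz => ?_
    rw [light_zero (h1.trans h2), sub_zero]
    by_contra hc
    push Not at hc
    unfold H at hH
    rw [Finset.card_eq_zero] at hH
    have : z ∈ (P.rem t u).filter fun z => (1 / 2 : ℝ) ^ (s + 1) < P.w u z :=
      Finset.mem_filter.2 ⟨hz, hc⟩
    rw [hH] at this
    exact absurd this (Finset.notMem_empty z)
  have := P.b_ge h2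
  linarith

/-- The invariant of a run of level `k + 1` with target `x` that started at time `s`, at a time `t`
at which no sub-run is in progress. -/
structure Inv (P : Proc ι) (φ : ℝ → ℝ) (m ε x : ℝ) (k s t : ℕ) : Prop where
  le : s ≤ t
  ex : ∃ G B : ℝ, 0 ≤ G ∧ 0 ≤ B ∧ P.Y t - P.Y s = G + B ∧
    ((k : ℝ) / 2 + 1) * G + φ (P.b s) - φ (P.b t) - m * P.H ((1 / 2) ^ (s + 1)) s t ≤ P.c s t ∧
    B ≤ 2 * ε * x * ((P.act t - P.act s) + (1 / 2) ^ (s + 1) * P.H ((1 / 2) ^ (s + 1)) s t)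

theorem Inv.start {φ : ℝ → ℝ} {m ε x : ℝ} {k s : ℕ} : Inv P φ m ε x k s s := by
  refine ⟨le_refl s, 0, 0, le_refl _, le_refl _, by simp, ?_, ?_⟩
  · have : P.H ((1 / 2) ^ (s + 1)) s s = 0 := by simp [H, rem_self]
    rw [this, c_self]; simp
  · have : P.H ((1 / 2) ^ (s + 1)) s s = 0 := by simp [H, rem_self]
    rw [this]; simp

/-- any period can be accounted as bad if the pushes in it are small -/
theorem Inv.bad {φ : ℝ → ℝ} {m ε x : ℝ} {k s t u : ℕ} (hφ : Phi φ m) (hI : Inv P φ m ε x k s t)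
    (h : t ≤ u)
    (hb : P.Y u - P.Y t ≤
      2 * ε * x * ((P.act u - P.act t) + (1 / 2) ^ (s + 1) * P.H ((1 / 2) ^ (s + 1)) t u)) :
    Inv P φ m ε x k s u := by
  obtain ⟨h1, G, B, hG, hB, e1, e2, e3⟩ := hI
  refine ⟨h1.trans h, G, B + (P.Y u - P.Y t), hG, ?_, ?_, ?_, ?_⟩
  · have := P.Y_mono h
    linarith
  · linarith
  · have := stepA (P := P) hφ h1 h
    rw [P.H_add h1 h]
    push_cast
    linarith
  · rw [P.H_add h1 h]
    push_cast
    linarith

theorem Inv.good {φ : ℝ → ℝ} {m ε x : ℝ} {k s t u : ℕ} (hI : Inv P φ m ε x k s t)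
    (h : t ≤ u) (hH : P.H ((1 / 2) ^ (s + 1)) t u = 0)
    (hφ : φ (P.b u) - φ (P.b t) = P.b u - P.b t) (hε : 0 ≤ ε) (hx : 0 ≤ x)
    (hc : (k : ℝ) / 2 * (P.Y u - P.Y t) ≤ P.c t u) :
    Inv P φ m ε x k s u := by
  obtain ⟨h1, G, B, hG, hB, e1, e2, e3⟩ := hI
  have h2 := P.Y_mono h
  refine ⟨h1.trans h, G + (P.Y u - P.Y t), B, by linarith, hB, by linarith, ?_, ?_⟩
  · have := stepG (P := P) h1 h hH hφ
    rw [P.H_add h1 h, hH]
    push_cast
    linarith
  · rw [P.H_add h1 h, hH]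
    have h3 : 0 ≤ P.act u - P.act t := (abs_nonneg _).trans (P.act_sub h)
    have h4 : 0 ≤ 2 * ε * x * (P.act u - P.act t) := by positivity
    push_cast
    linarith

/-- a sub-run: it is bad if it is aborted or a heavy string is removed -/
theorem Inv.sub {φ : ℝ → ℝ} {m ε x ρ x1 : ℝ} {k s t u : ℕ} (hφ : Phi φ m)
    (hI : Inv P φ m ε x k s t)
    (h : t ≤ u) (hε : 0 ≤ ε) (hx : 0 ≤ x) (hρ : 0 ≤ ρ) (hρ1 : ρ ≤ 1)
    (hx1 : x1 = ε * x * (1 / 2) ^ (s + 1) * ρ)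
    (hy : P.Y u - P.Y t ≤ 2 * x1)
    (hreg : |P.b u - P.b t| ≤ ρ → φ (P.b u) - φ (P.b t) = P.b u - P.b t)
    (hc : |P.b u - P.b t| ≤ ρ → (k : ℝ) / 2 * (P.Y u - P.Y t) ≤ P.c t u) :
    Inv P φ m ε x k s u := by
  have hex : 0 ≤ 2 * ε * x := by positivity
  have hth : (0 : ℝ) ≤ (1 / 2) ^ (s + 1) := by positivity
  have hth1 : (1 / 2 : ℝ) ^ (s + 1) ≤ 1 := pow_le_one₀ (by norm_num) (by norm_num)
  have h3 : 0 ≤ P.act u - P.act t := (abs_nonneg _).trans (P.act_sub h)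
  rcases Nat.eq_zero_or_pos (P.H ((1 / 2) ^ (s + 1)) t u) with hH | hH
  · rcases le_or_gt |P.b u - P.b t| ρ with hr | hr
    · exact hI.good h hH (hreg hr) hε hx (hc hr)
    · refine hI.bad hφ h ?_
      have h4 : ρ ≤ P.act u - P.act t := hr.le.trans (P.act_sub h)
      have h5 : (1 / 2 : ℝ) ^ (s + 1) * ρ ≤ P.act u - P.act t := by nlinarith
      rw [hH]
      push_cast
      calc P.Y u - P.Y t ≤ 2 * x1 := hy
        _ = 2 * ε * x * ((1 / 2) ^ (s + 1) * ρ) := by rw [hx1]; ring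
        _ ≤ 2 * ε * x * (P.act u - P.act t) := mul_le_mul_of_nonneg_left h5 hex
        _ = _ := by ring
  · refine hI.bad hφ h ?_
    have h4 : (1 : ℝ) ≤ P.H ((1 / 2) ^ (s + 1)) t u := by exact_mod_cast hH
    have h5 : (1 / 2 : ℝ) ^ (s + 1) * ρ ≤ (1 / 2) ^ (s + 1) * P.H ((1 / 2) ^ (s + 1)) t u :=
      mul_le_mul_of_nonneg_left (hρ1.trans h4) hth
    calc P.Y u - P.Y t ≤ 2 * x1 := hy
      _ = 2 * ε * x * ((1 / 2) ^ (s + 1) * ρ) := by rw [hx1]; ring
      _ ≤ _ := mul_le_mul_of_nonneg_left (by linarith) hex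

theorem Inv.idle {φ : ℝ → ℝ} {m ε x : ℝ} {k s t : ℕ} (hφ : Phi φ m)
    (hI : Inv P φ m ε x k s t) (hε : 0 ≤ ε) (hx : 0 ≤ x)
    (hy : P.Y (t + 1) = P.Y t) : Inv P φ m ε x k s (t + 1) := by
  refine hI.bad hφ (Nat.le_succ t) ?_
  have h3 : 0 ≤ P.act (t + 1) - P.act t := (abs_nonneg _).trans (P.act_sub (Nat.le_succ t))
  rw [hy, sub_self]
  positivity

/-- the conclusion for a completed run -/
theorem Inv.done {φ : ℝ → ℝ} {m ε x : ℝ} {k s t : ℕ} (hφ : Phi φ m)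
    (hI : Inv P φ m ε x k s t) (hε : 0 ≤ ε) (hx : 0 < x)
    (hy : x ≤ P.Y t - P.Y s) (hk : 16 * ε * (k + 2) ≤ 1) (hm : m * 2 ^ (s + 2) ≤ x / 4) :
    ((k : ℝ) + 1) / 2 * (P.Y t - P.Y s) ≤ P.c s t := by
  obtain ⟨h1, G, B, hG, hB, e1, e2, e3⟩ := hI
  set y := P.Y t - P.Y s with hydef
  have hm0 : 0 ≤ m := (hφ.nonneg 0).trans (hφ.le 0)
  have hH := P.H_le (θ := (1 / 2) ^ (s + 1)) (s := s) (t := t)
  have ha : P.act t - P.act s ≤ 3 := by
    have := P.act_le (t := t); have := P.act_nonneg (t := s); linarith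
  have hex : 0 ≤ 2 * ε * x := by positivity
  have hB2 : B ≤ 8 * ε * y := by
    have : B ≤ 2 * ε * x * 4 := e3.trans (mul_le_mul_of_nonneg_left (by linarith) hex)
    nlinarith
  -- heavy term
  have hHm : m * P.H ((1 / 2) ^ (s + 1)) s t ≤ m * 2 ^ (s + 1) := by
    refine mul_le_mul_of_nonneg_left ?_ hm0
    have e : (1 / 2 : ℝ) ^ (s + 1) * 2 ^ (s + 1) = 1 := by
      rw [← mul_pow]; norm_num
    have h2 : (0 : ℝ) < 2 ^ (s + 1) := by positivity
    calc (P.H ((1 / 2) ^ (s + 1)) s t : ℝ)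
        = ((1 / 2) ^ (s + 1) * P.H ((1 / 2) ^ (s + 1)) s t) * 2 ^ (s + 1) := by
          rw [mul_right_comm, e, one_mul]
      _ ≤ 1 * 2 ^ (s + 1) := mul_le_mul_of_nonneg_right hH h2.le
      _ = _ := one_mul _
  have h3 := hφ.nonneg (P.b s)
  have h4 := hφ.le (P.b t)
  have h5 : m + m * 2 ^ (s + 1) ≤ m * 2 ^ (s + 2) := by
    have : (1 : ℝ) ≤ 2 ^ (s + 1) := one_le_pow₀ (by norm_num)
    rw [pow_succ 2 (s + 1)]
    nlinarith
  have h6 : G = y - B := by linarith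
  have hk0 : (0 : ℝ) ≤ k := Nat.cast_nonneg k
  have hy0 : 0 < y := lt_of_lt_of_le hx hy
  have h7 : ((k : ℝ) / 2 + 1) * B ≤ y / 4 := by
    have : ((k : ℝ) / 2 + 1) * B ≤ ((k : ℝ) / 2 + 1) * (8 * ε * y) :=
      mul_le_mul_of_nonneg_left hB2 (by positivity)
    have e : ((k : ℝ) / 2 + 1) * (8 * ε * y) = (16 * ε * (k + 2)) * (y / 4) := by ring
    have : (16 * ε * (k + 2)) * (y / 4) ≤ 1 * (y / 4) := mul_le_mul_of_nonneg_right hk (by positivity)
    linarith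
  have h8 : ((k : ℝ) / 2 + 1) * G = ((k : ℝ) / 2 + 1) * y - ((k : ℝ) / 2 + 1) * B := by
    rw [h6]; ring
  have h9 : ((k : ℝ) + 1) / 2 * y = ((k : ℝ) / 2 + 1) * y - y / 2 := by ring
  linarith

end Proc

end Pool.Agent.H620R2.Om
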