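import Pool.Agent.H620R2.OmInv

set_option autoImplicit false

namespace Pool.Agent.H620R2.Om

open Pool.Agent.Helper227 Encodable Classical Filter Topology

theorem summable_dom {U : List Bool →. List Bool} (hU : IsMachine U) :
    Summable fun p : List Bool => if (U p).Dom then (1 / 2 : ℝ) ^ p.length else 0 := by
  refine summable_of_sum_le (c := 1) (fun p => by split_ifs <;> positivity) fun F => ?_
  rw [← Finset.sum_filter]
  exact kraft_real hU _ fun p hp => (Finset.mem_filter.1 hp).2

theorem tendsto_of_eventually {U : List Bool →. List Bool} (hU : IsMachine U)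
    (B : ℕ → Finset (List Bool)) (A : Set (List Bool)) (hB : ∀ t, ∀ p ∈ B t, (U p).Dom)
    (h : ∀ p, ∀ᶠ t in atTop, (p ∈ B t ↔ p ∈ A)) :
    Tendsto (fun t => ∑ p ∈ B t, (1 / 2 : ℝ) ^ p.length) atTop
      (𝓝 (∑' p : A, (1 / 2 : ℝ) ^ p.1.length)) := by
  have e1 : ∀ t, ∑ p ∈ B t, (1 / 2 : ℝ) ^ p.length =
      ∑' p : List Bool, if p ∈ B t then (1 / 2 : ℝ) ^ p.length else 0 := by
    intro t
    rw [tsum_eq_sum (s := B t)]
    · exact Finset.sum_congr rfl fun p hp => by rw [if_pos hp]
    · intro p hp; rw [if_neg hp]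
  have e2 : ∑' p : A, (1 / 2 : ℝ) ^ p.1.length =
      ∑' p : List Bool, if p ∈ A then (1 / 2 : ℝ) ^ p.length else 0 := by
    rw [tsum_subtype A fun p : List Bool => (1 / 2 : ℝ) ^ p.length]
    refine tsum_congr fun p => ?_
    by_cases hp : p ∈ A
    · rw [Set.indicator_of_mem hp, if_pos hp]
    · rw [Set.indicator_of_notMem hp, if_neg hp]
  simp only [e1, e2]
  refine tendsto_tsum_of_dominated_convergence (summable_dom hU) (fun p => ?_)
    (Eventually.of_forall fun t p => ?_)
  · refine tendsto_const_nhds.congr' ?_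
    filter_upwards [h p] with t ht
    by_cases hp : p ∈ A
    · rw [if_pos hp, if_pos (ht.2 hp)]
    · rw [if_neg hp, if_neg (fun h' => hp (ht.1 h'))]
  · by_cases hp : p ∈ B t
    · rw [if_pos hp, if_pos (hB t p hp)]
      rw [Real.norm_of_nonneg (by positivity)]
    · rw [if_neg hp, norm_zero]
      split_ifs <;> positivity

/-- The weight of the programs of `U` with a value in `X`. -/
noncomputable def Omega (U : List Bool →. List Bool) (X : Set (List Bool)) : ℝ :=
  ∑' p : {p : List Bool // ∃ z ∈ X, z ∈ U p}, (1 / 2 : ℝ) ^ p.1.length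

variable (D : Data) (σ : List Bool)

/-- programs counted at stage `t` that are not ours -/
noncomputable def B1 (t : ℕ) : Finset (List Bool) :=
  ((cF t).filter fun z => ¬ D.R z t).biUnion fun z => progs D σ t z

/-- our own programs -/
noncomputable def B2 (x0 : List Bool) (t : ℕ) : Finset (List Bool) :=
  ((Finset.range t).filter fun i => (push D σ i).isSome).image
    fun i => piS σ ++ KC.cw (req D x0 σ) i

theorem sum_B1 {U : List Bool →. List Bool} (hQ : ∀ p z t, D.Q (p, z) t → z ∈ U p) (t : ℕ) :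
    ∑ p ∈ B1 D σ t, (1 / 2 : ℝ) ^ p.length = ∑ z ∈ cF t with ¬ D.R z t, wR D σ t z := by
  have hdisj : ∀ z z', z ≠ z' → Disjoint (progs D σ t z) (progs D σ t z') := by
    intro z z' hne
    rw [Finset.disjoint_left]
    intro p h1 h2
    simp only [progs, Finset.mem_filter] at h1 h2
    exact hne (Part.mem_unique (hQ _ _ _ h1.2.2.1) (hQ _ _ _ h2.2.2.1))
  unfold B1 wR
  rw [Finset.sum_biUnion (fun z _ z' _ h => hdisj z z' h)]

theorem len_cw (x0 : List Bool) {i n : ℕ} (h : push D σ i = some n) :
    (piS σ ++ KC.cw (req D x0 σ) i).length = n := by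
  have h1 : req D x0 σ i = some (n - (piS σ).length, x0) := by simp [req, h]
  rw [List.length_append, KC.cw_length (wr_sum D x0 σ) h1]
  have := push_ge D h
  simp only
  omega

theorem sum_B2 (x0 : List Bool) (t : ℕ) :
    ∑ p ∈ B2 D σ x0 t, (1 / 2 : ℝ) ^ p.length = yr D σ t := by
  unfold B2
  rw [Finset.sum_image, yr_eq_sum, Finset.sum_filter]
  · refine Finset.sum_congr rfl fun i _ => ?_
    rcases h : push D σ i with _ | n
    · simp [pw, h]
    · rw [if_pos (by simp), len_cw D σ x0 h]
      simp [pw, h]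
  · intro i hi j hj hij
    rw [Finset.mem_coe, Finset.mem_filter] at hi hj
    have h1 := List.append_cancel_left hij
    by_contra hne
    rcases Nat.lt_or_gt_of_ne hne with hlt | hlt
    · have := (KC.cw_inc (wr_sum D x0 σ) hlt (req_isSome D x0 hi.2) (req_isSome D x0 hj.2)).1
      rw [h1] at this
      exact this (List.prefix_refl _)
    · have := (KC.cw_inc (wr_sum D x0 σ) hlt (req_isSome D x0 hj.2) (req_isSome D x0 hi.2)).1
      rw [h1] at this
      exact this (List.prefix_refl _)

theorem br_tendsto {U : List Bool →. List Bool} (hU : IsMachine U) {X : Set (List Bool)}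
    {x0 : List Bool} (hx0 : x0 ∈ X)
    (hQ : ∀ p z t, D.Q (p, z) t → z ∈ U p) (hQ' : ∀ p z, z ∈ U p → ∃ t, D.Q (p, z) t)
    (hR : ∀ z t, D.R z t → z ∉ X) (hR' : ∀ z, z ∉ X → ∃ t, D.R z t)
    (hσ : ∀ p, U (σ ++ p) = Mach D x0 p) :
    Tendsto (br D σ) atTop (𝓝 (Omega U X)) := by
  have hB2U : ∀ t, ∀ p ∈ B2 D σ x0 t, x0 ∈ U p ∧ piS σ <+: p := by
    intro t p hp
    unfold B2 at hp
    obtain ⟨i, hi, rfl⟩ := Finset.mem_image.1 hp
    exact ⟨(mem_cylinder D x0 hσ).2 ⟨rfl, i, (Finset.mem_filter.1 hi).2, rfl⟩,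
      List.prefix_append _ _⟩
  have hB1 : ∀ t, ∀ p ∈ B1 D σ t, ∃ z, encode z < t ∧ ¬ D.R z t ∧ encode p < t ∧
      D.Q (p, z) t ∧ ¬ (p.take (piS σ).length = piS σ) := by
    intro t p hp
    unfold B1 at hp
    obtain ⟨z, hz, hp⟩ := Finset.mem_biUnion.1 hp
    simp only [progs, Finset.mem_filter, mem_cF] at hz hp
    exact ⟨z, hz.1, hz.2, hp.1, hp.2.2.1, hp.2.2.2⟩
  have htake : ∀ p, p.take (piS σ).length = piS σ ↔ piS σ <+: p := by
    intro p
    rw [List.prefix_iff_eq_take]
    exact eq_comm
  have hdisj : ∀ t, Disjoint (B1 D σ t) (B2 D σ x0 t) := by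
    intro t
    rw [Finset.disjoint_left]
    intro p h1 h2
    obtain ⟨z, -, -, -, -, h3⟩ := hB1 t p h1
    exact h3 ((htake p).2 (hB2U t p h2).2)
  have e : ∀ t, br D σ t = ∑ p ∈ B1 D σ t ∪ B2 D σ x0 t, (1 / 2 : ℝ) ^ p.length := by
    intro t
    rw [Finset.sum_union (hdisj t), sum_B1 D σ hQ, sum_B2, br_eq, add_comm]
  have e' : br D σ = fun t => ∑ p ∈ B1 D σ t ∪ B2 D σ x0 t, (1 / 2 : ℝ) ^ p.length := funext e
  rw [e']
  refine tendsto_of_eventually hU (fun t => B1 D σ t ∪ B2 D σ x0 t)
    {p | ∃ z ∈ X, z ∈ U p} ?_ ?_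
  · intro t p hp
    rcases Finset.mem_union.1 hp with h | h
    · obtain ⟨z, -, -, -, h3, -⟩ := hB1 t p h
      exact Part.dom_iff_mem.2 ⟨z, hQ _ _ _ h3⟩
    · exact Part.dom_iff_mem.2 ⟨x0, (hB2U t p h).1⟩
  · intro p
    by_cases hp : piS σ <+: p
    · -- our cylinder
      obtain ⟨q, rfl⟩ := hp
      have h1 : ∀ t, piS σ ++ q ∉ B1 D σ t := by
        intro t h
        obtain ⟨z, -, -, -, -, h3⟩ := hB1 t _ h
        exact h3 ((htake _).2 (List.prefix_append _ _))
      by_cases hx : piS σ ++ q ∈ {p | ∃ z ∈ X, z ∈ U p}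
      · obtain ⟨z, hz, hz2⟩ := hx
        obtain ⟨h2, i, hi, hi2⟩ := (mem_cylinder D x0 hσ).1 hz2
        filter_upwards [eventually_gt_atTop i] with t ht
        constructor
        · intro _; exact ⟨z, hz, hz2⟩
        · intro _
          refine Finset.mem_union_right _ ?_
          unfold B2
          exact Finset.mem_image.2 ⟨i, Finset.mem_filter.2 ⟨Finset.mem_range.2 ht, hi⟩, by rw [hi2]⟩
      · refine Eventually.of_forall fun t => ?_
        constructor
        · intro h
          exfalso
          rcases Finset.mem_union.1 h with h | h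
          · exact h1 t h
          · exact hx ⟨x0, hx0, (hB2U t _ h).1⟩
        · intro h; exact absurd h hx
    · have h2 : ∀ t, p ∉ B2 D σ x0 t := fun t h => hp (hB2U t p h).2
      by_cases hx : p ∈ {p | ∃ z ∈ X, z ∈ U p}
      · obtain ⟨z, hz, hz2⟩ := hx
        obtain ⟨t0, ht0⟩ := hQ' _ _ hz2
        filter_upwards [eventually_ge_atTop (max t0 (max (encode z) (encode p) + 1))] with t ht
        constructor
        · intro _; exact ⟨z, hz, hz2⟩
        · intro _
          have a1 : t0 ≤ t := (le_max_left _ _).trans ht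
          have a2 : max (encode z) (encode p) + 1 ≤ t := (le_max_right _ _).trans ht
          have a3 := le_max_left (encode z) (encode p)
          have a4 := le_max_right (encode z) (encode p)
          refine Finset.mem_union_left _ ?_
          unfold B1
          refine Finset.mem_biUnion.2 ⟨z, ?_, ?_⟩
          · rw [Finset.mem_filter, mem_cF]
            exact ⟨by omega, fun h => hR z t h hz⟩
          · simp only [progs, Finset.mem_filter, mem_cF]
            exact ⟨by omega, by omega, D.mQ _ _ _ a1 ht0, fun h => hp ((htake p).1 h)⟩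
      · by_cases hd : ∃ z, z ∈ U p
        · obtain ⟨z, hz⟩ := hd
          have hzX : z ∉ X := fun h => hx ⟨z, h, hz⟩
          obtain ⟨t0, ht0⟩ := hR' z hzX
          filter_upwards [eventually_ge_atTop t0] with t ht
          constructor
          · intro h
            exfalso
            rcases Finset.mem_union.1 h with h | h
            · obtain ⟨z', -, k2, -, k4, -⟩ := hB1 t p h
              have : z' = z := Part.mem_unique (hQ _ _ _ k4) hz
              rw [this] at k2
              exact k2 (D.mR _ _ _ ht ht0)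
            · exact h2 t h
          · intro h; exact absurd h hx
        · refine Eventually.of_forall fun t => ?_
          constructor
          · intro h
            exfalso
            rcases Finset.mem_union.1 h with h | h
            · obtain ⟨z', -, k2, -, k4, -⟩ := hB1 t p h
              exact hd ⟨z', hQ _ _ _ k4⟩
            · exact h2 t h
          · intro h; exact absurd h hx

end Pool.Agent.H620R2.Om
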