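import Pool.Agent.H620R2.OmTest

set_option autoImplicit false

namespace Pool.Agent.H620R2.Om

open Pool.Agent.Helper227 Encodable MeasureTheory
open Nat.Partrec (Code)

theorem exists_adj : ∃ U : List Bool →. List Bool, IsMachine U ∧
    ∃ (M : ℕ → List Bool →. List Bool) (c : ℕ → List Bool),
      Partrec₂ M ∧ (∀ e, IsMachine (M e)) ∧
      (∀ N : List Bool →. List Bool, IsMachine N → ∃ e, M e = N) ∧
      Computable c ∧ (∀ d e : ℕ, c d <+: c e → d = e) ∧
      ∀ (e : ℕ) (p : List Bool), U (c e ++ p) = M e p := by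
  have hU : IsMachine (univ zero) := isMachineIn_zero.1 (isUniversalIn_univ zero).1
  have hM : ∀ e, IsMachine fun p => univ zero (hd e ++ p) := by
    intro e
    refine ⟨?_, ?_⟩
    · have h1 : Primrec fun p : List Bool => hd e ++ p :=
        Primrec.list_append.comp (Primrec.const _) Primrec.id
      exact Partrec.comp hU.1 h1.to_comp
    · intro p q hp hq hpq
      have h2 := hU.2 _ _ hp hq ((List.prefix_append_right_inj _).2 hpq)
      exact List.append_cancel_left h2
  refine ⟨univ zero, hU, fun e p => univ zero (hd e ++ p), hd, ?_, hM, ?_, primrec_hd.to_comp, ?_,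
    fun e p => rfl⟩
  · have h1 : Primrec fun x : ℕ × List Bool => hd x.1 ++ x.2 :=
      Primrec.list_append.comp (primrec_hd.comp Primrec.fst) Primrec.snd
    exact Partrec.comp hU.1 h1.to_comp
  · intro N hN
    obtain ⟨G, hG, mG, eG⟩ := recIn_graph' (isMachineIn_zero.2 hN).1
    obtain ⟨c, hc⟩ := Nat.Partrec.Code.exists_code.1 hG.re
    have h1 : ∀ x, (c.eval (encode x)).Dom ↔ G x := by
      intro x
      rw [hc]
      simp [Part.assert]
    have hsound : ∀ t : ℕ, ∀ p ∈ PL c (pre zero t), p.2 ∈ N p.1 := by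
      intro t p hp
      obtain ⟨_, j, hj, h2⟩ := mem_PL.1 hp
      obtain ⟨v, hv⟩ := Option.isSome_iff_exists.1 h2
      have h3 := Part.dom_iff_mem.2 ⟨v, Nat.Partrec.Code.evaln_sound hv⟩
      rw [h1] at h3
      rw [length_pre] at hj
      rw [take_pre zero _ _ (by omega)] at h3
      exact (eG _ _).2 ⟨j, h3⟩
    refine ⟨encode c, funext fun τ => Part.ext fun y => ?_⟩
    rw [mem_univ]
    constructor
    · rintro ⟨s, c', τ', h2, h3, h4⟩
      obtain ⟨he, -⟩ := hd_prefix (σ := τ) (τ := τ') (by rw [h2])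
      have hcc : c = c' := Encodable.encode_injective he
      subst hcc
      rw [List.append_cancel_left h2]
      exact hsound s _ h3
    · intro hy
      obtain ⟨s, hs⟩ := (eG _ _).1 hy
      obtain ⟨v, hv⟩ := Part.dom_iff_mem.1 ((h1 _).2 hs)
      obtain ⟨k, hk⟩ := Nat.Partrec.Code.evaln_complete.1 hv
      refine ⟨max s (max k (encode (τ, y) + 1)), c, τ, rfl, ?_, ?_⟩
      · rw [mem_PL, length_pre]
        refine ⟨by omega, s, by rw [length_pre]; omega, ?_⟩
        rw [length_pre, take_pre zero _ _ (le_max_left _ _)]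
        exact Option.isSome_iff_exists.2 ⟨v, Nat.Partrec.Code.evaln_mono
          ((le_max_left _ _).trans (le_max_right _ _)) hk⟩
      · intro p hp q hq hpq
        have hp2 := hsound _ p hp
        have hq2 := hsound _ q hq
        have he : p.1 = q.1 := hN.2 _ _ (Part.dom_iff_mem.2 ⟨_, hp2⟩) (Part.dom_iff_mem.2 ⟨_, hq2⟩)
          (List.prefix_iff_eq_take.2 hpq.symm)
        refine Prod.ext he ?_
        rw [he] at hp2
        exact Part.mem_unique hp2 hq2
  · intro d e h
    exact (hd_prefix (n := d) (m := e) (σ := []) (τ := []) (by simpa using h)).1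

end Pool.Agent.H620R2.Om
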