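import Pool.Agent.H620R2.OmPhi

set_option autoImplicit false

namespace Pool.Agent.H620R2.Om

open Pool.Agent.Helper227 Encodable Classical

variable {D : Data} {ι : Type}

/-- The link of a frame with its parent. -/
def Link (D : Data) (σ : List Bool) (F : Frame) : List Frame → Prop
  | [] => F = topF σ
  | P :: _ => ∃ ζ, D.G (Fn P + Fs P + 7, ζ) ∧ close (Fs F) (Fb F) ζ ∧ Fr F = ζ.length ∧
      Fn F = subn σ P ζ.length

/-- The invariant of the stack. -/
def SInv (D : Data) (σ : List Bool) (W : Proc ι) : ℕ → List Frame → Prop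
  | _, [] => True
  | t, F :: L => Fs F ≤ t ∧
      Proc.Inv W (phi D.G (Fn F + Fs F + 7)) (5 * (1 / 2) ^ (Fn F + Fs F + 7)) ((1 / 2) ^ ee σ)
        ((1 / 2) ^ Fn F) (KK σ - L.length - 1) (Fs F) t ∧
      L.length + 1 ≤ KK σ ∧ Link D σ F L ∧ SInv D σ W (Fs F) L

theorem KK_pos (σ : List Bool) : 0 < KK σ := by unfold KK; positivity

theorem Fs_topF (σ : List Bool) : Fs (topF σ) = 0 := rfl

theorem yr_nochange {σ : List Bool} {t : ℕ} (h : push D σ t = none) :
    yr D σ (t + 1) = yr D σ t := by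
  rw [yr_succ]; simp [pw, h]

theorem subn_pow (σ : List Bool) (F : Frame) (l : ℕ) : (1 / 2 : ℝ) ^ subn σ F l =
    (1 / 2) ^ ee σ * (1 / 2) ^ Fn F * (1 / 2) ^ (Fs F + 1) * (1 / 2) ^ l := by
  rw [← pow_add, ← pow_add, ← pow_add]
  congr 1
  unfold subn
  omega

/-- idling -/
theorem SInv.idle (hG : IsTest D.G) {σ : List Bool} {W : Proc ι} {t : ℕ} {L : List Frame}
    (h : SInv D σ W t L) (hY : W.Y (t + 1) = W.Y t) : SInv D σ W (t + 1) L := by
  cases L with
  | nil => trivial
  | cons F L =>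
    obtain ⟨h1, h2, h3⟩ := h
    exact ⟨h1.trans (Nat.le_succ t), h2.idle (Phi_phi hG _) (by positivity) (by positivity) hY, h3⟩

/-- inner frames are abandoned without constraint: the frame `F` is aborted or completed at
time `t`; then the stack below satisfies the invariant at time `t`. -/
theorem SInv.sub (hG : IsTest D.G) {σ : List Bool} {W : Proc ι} {t : ℕ} {F : Frame}
    {L : List Frame} (h : SInv D σ W t (F :: L)) (hy : YI D σ t (F :: L))
    (hWY : ∀ s ≤ t, W.Y s = yr D σ s) (hWb : ∀ s ≤ t, W.b s = br D σ s)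
    (hc : |br D σ t - br D σ (Fs F)| ≤ (1 / 2) ^ Fr F →
      ((KK σ - L.length : ℕ) : ℝ) / 2 * (W.Y t - W.Y (Fs F)) ≤ W.c (Fs F) t) :
    SInv D σ W t L := by
  cases L with
  | nil => trivial
  | cons P L =>
    obtain ⟨h1, -, h3, ⟨ζ, l1, l2, l3, l4⟩, k1, k2, k3, k4, k5⟩ := h
    refine ⟨k1.trans h1, ?_, k3, k4, k5⟩
    obtain ⟨y1, y2, y3, ⟨y4, y5, y6⟩, y7⟩ := hy
    have eB : (Fb F : ℝ) / 2 ^ Fs F = br D σ (Fs F) := by
      unfold br; rw [y6]
    obtain ⟨c1, c2⟩ := close_iff.1 l2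
    rw [eB] at c1 c2
    refine Proc.Inv.sub (ρ := (1 / 2) ^ ζ.length) (x1 := (1 / 2) ^ Fn F) (Phi_phi hG _) k2 h1
      (by positivity) (by positivity) (by positivity) (pow_le_one₀ (by norm_num) (by norm_num))
      ?_ ?_ ?_ ?_
    · rw [l4, subn_pow]
    · rw [hWY t (le_refl t), hWY _ h1]
      have : (0 : ℝ) < (1 / 2) ^ Fn F := by positivity
      linarith
    · intro hr
      rw [hWb t (le_refl t), hWb _ h1] at hr ⊢
      exact phi_slope hG l1 c1 c2 hr
    · intro hr
      rw [hWb t (le_refl t), hWb _ h1, ← l3] at hr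
      have := hc hr
      have e : KK σ - (P :: L).length = KK σ - L.length - 1 := by
        simp only [List.length_cons]; omega
      rw [e] at this
      exact this

theorem SInv.suffix_time (hG : IsTest D.G) {σ : List Bool} {W : Proc ι} {L0 L : List Frame}
    {F : Frame} : ∀ {t : ℕ}, SInv D σ W t (L0 ++ F :: L) → Fs F ≤ t ∧ Link D σ F L ∧
      SInv D σ W (Fs F) L := by
  induction L0 with
  | nil =>
    intro t h
    exact ⟨h.1, h.2.2.2.1, h.2.2.2.2⟩
  | cons F0 L0 ih =>
    intro t h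
    obtain ⟨h1, h2, h3, h4, h5⟩ := h
    obtain ⟨k1, k2, k3⟩ := ih h5
    exact ⟨k1.trans h1, k2, k3⟩

theorem not_compl_facts {σ : List Bool} {t : ℕ} {F : Frame} {L : List Frame}
    (hy : YI D σ t (F :: L)) : compl t (St D σ t).1 F ↔
      (1 / 2 : ℝ) ^ Fn F ≤ yr D σ t - yr D σ (Fs F) := by
  rw [compl_iff hy.1, hy.2.1]
  rfl

/-- completed run -/
theorem SInv.completed (hG : IsTest D.G) {σ : List Bool} {W : Proc ι} {t : ℕ} {F : Frame}
    {L : List Frame} (h : SInv D σ W t (F :: L)) (hy : YI D σ t (F :: L))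
    (hWY : ∀ s ≤ t, W.Y s = yr D σ s)
    (hc : compl t (St D σ t).1 F) :
    ((KK σ - L.length : ℕ) : ℝ) / 2 * (W.Y t - W.Y (Fs F)) ≤ W.c (Fs F) t := by
  obtain ⟨h1, h2, h3, h4, h5⟩ := h
  rw [not_compl_facts hy] at hc
  have hd := h2.done (Phi_phi hG _) (by positivity) (by positivity)
    (by rw [hWY t (le_refl t), hWY _ h1]; exact hc) ?_ ?_
  · have e : ((KK σ - L.length - 1 : ℕ) : ℝ) + 1 = ((KK σ - L.length : ℕ) : ℝ) := by
      have : KK σ - L.length = (KK σ - L.length - 1) + 1 := by omega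
      rw [this]; push_cast; simp
    rw [e] at hd
    exact hd
  · have h6 : ((KK σ - L.length - 1 : ℕ) : ℝ) + 2 ≤ 2 ^ (NN σ + 3) := by
      have h7 : KK σ - L.length - 1 + 2 ≤ 2 ^ (NN σ + 3) := by
        have h8 : KK σ = 2 ^ (NN σ + 2) := rfl
        have h9 : 2 ^ (NN σ + 3) = 2 * 2 ^ (NN σ + 2) := by rw [pow_succ]; ring
        have h10 : 1 ≤ 2 ^ (NN σ + 2) := Nat.one_le_two_pow
        omega
      exact_mod_cast h7
    have h7 : (1 / 2 : ℝ) ^ ee σ * 2 ^ (NN σ + 3) * 16 = 1 := by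
      have : ee σ = (NN σ + 3) + 4 := rfl
      rw [this, pow_add, mul_assoc, mul_assoc, mul_comm ((1 / 2 : ℝ) ^ 4), ← mul_assoc,
        ← mul_assoc, ← mul_pow]
      norm_num
    have h8 : (0 : ℝ) < (1 / 2) ^ ee σ := by positivity
    have h9 := mul_le_mul_of_nonneg_left h6 h8.le
    linarith
  · have e1 : (5 * (1 / 2 : ℝ) ^ (Fn F + Fs F + 7)) * 2 ^ (Fs F + 2) = 5 / 32 * (1 / 2) ^ Fn F := by
      have e2 : (1 / 2 : ℝ) ^ (Fs F) * 2 ^ (Fs F) = 1 := by rw [← mul_pow]; norm_num
      rw [pow_add, pow_add, pow_add 2]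
      calc 5 * ((1 / 2 : ℝ) ^ Fn F * (1 / 2) ^ Fs F * (1 / 2) ^ 7) * (2 ^ Fs F * 2 ^ 2)
          = ((1 / 2 : ℝ) ^ (Fs F) * 2 ^ (Fs F)) * (5 * (1 / 2) ^ 7 * 2 ^ 2) * (1 / 2) ^ Fn F := by ring
        _ = _ := by rw [e2]; norm_num
    rw [e1]
    have : (0 : ℝ) < (1 / 2) ^ Fn F := by positivity
    linarith

/-- the main invariant -/
theorem main_inv (hG : IsTest D.G) {σ : List Bool} {U : List Bool →. List Bool}
    (hU : IsMachine U) (hQ : ∀ p z t, D.Q (p, z) t → z ∈ U p) (T : ℕ) :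
    ∀ t ≤ T, (St D σ t).2 ≠ [] ∧ SInv D σ (proc D σ hU hQ (cF T)) t (St D σ t).2 := by
  set W := proc D σ hU hQ (cF T) with hW
  have hWY : ∀ s, W.Y s = yr D σ s := fun s => rfl
  have hWb : ∀ s ≤ T, W.b s = br D σ s := fun s hs => proc_b D σ hU hQ hs
  intro t
  induction t with
  | zero =>
    intro _
    refine ⟨by simp [St], ?_⟩
    change SInv D σ W 0 [topF σ]
    exact ⟨le_refl _, Proc.Inv.start, KK_pos σ, rfl, trivial⟩
  | succ t ih =>
    intro ht
    obtain ⟨ih1, ih2⟩ := ih (by omega)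
    have hY := (yI (D := D) σ t).1
    have hlast := (yI (D := D) σ t).2.2
    cases stepCase D σ t with
    | drop L0 F L1 hL hF h1 hS hp =>
      have hyn := yr_nochange hp
      rw [hL] at ih2 hY hlast
      obtain ⟨k1, k2, k3⟩ := SInv.suffix_time hG ih2
      have hYF : YI D σ t (F :: L1) := YI.suffix hY
      -- the stack with F on top satisfies the invariant except for the run of F itself
      cases L1 with
      | nil =>
        exfalso
        apply hF
        have e : F = topF σ := k2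
        rw [e, regOk_iff (Nat.zero_le t)]
        have h3 : ((BO D σ t + (St D σ t).1 : ℕ) : ℝ) / 2 ^ t = br D σ t := rfl
        have e2 : (Fb (topF σ) : ℝ) / 2 ^ Fs (topF σ) = 1 := by
          change ((1 : ℕ) : ℝ) / 2 ^ 0 = 1; norm_num
        have e3 : (1 / 2 : ℝ) ^ Fr (topF σ) = 1 := by
          change (1 / 2 : ℝ) ^ 0 = 1; norm_num
        rw [h3, e2, e3, abs_le]
        have h4 := br_nonneg D σ t
        have h5 := br_le D σ hU hQ t
        constructor <;> linarith
      | cons P L2 =>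
        refine ⟨by rw [hS]; simp, ?_⟩
        rw [hS]
        refine SInv.idle hG ?_ (by rw [hWY, hWY]; exact hyn)
        -- rebuild
        obtain ⟨ζ, l1, l2, l3, l4⟩ := k2
        obtain ⟨m1, m2, m3, m4, m5⟩ := k3
        refine ⟨m1.trans k1, ?_, m3, m4, m5⟩
        obtain ⟨y1, y2, y3, ⟨y4, y5, y6⟩, y7⟩ := hYF
        have eB : (Fb F : ℝ) / 2 ^ Fs F = br D σ (Fs F) := by
          unfold br; rw [y6]
        have hnr : ¬ |br D σ t - br D σ (Fs F)| ≤ (1 / 2) ^ Fr F := by
          rw [regOk_iff k1, eB] at hF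
          exact hF
        refine Proc.Inv.sub (ρ := (1 / 2) ^ ζ.length) (x1 := (1 / 2) ^ Fn F) (Phi_phi hG _) m2 k1
          (by positivity) (by positivity) (by positivity) (pow_le_one₀ (by norm_num) (by norm_num))
          ?_ ?_ ?_ ?_
        · rw [l4, subn_pow]
        · rw [hWY, hWY]
          have : (0 : ℝ) < (1 / 2) ^ Fn F := by positivity
          linarith
        · intro hr
          rw [hWb t (by omega), hWb _ (by omega), ← l3] at hr
          exact absurd hr hnr
        · intro hr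
          rw [hWb t (by omega), hWb _ (by omega), ← l3] at hr
          exact absurd hr hnr
    | nil hL hS hp => exact absurd hL ih1
    | pop F L1 hL hr hc hS hp =>
      have hyn := yr_nochange hp
      rw [hL] at ih2 hY hlast
      have hcomp := ih2.completed hG hY (fun s _ => hWY s) hc
      cases L1 with
      | nil =>
        exfalso
        have e : F = topF σ := ih2.2.2.2.1
        have h1 : W.c (Fs F) t ≤ 1 := W.c_le_one
        rw [not_compl_facts hY] at hc
        rw [hWY, hWY] at hcomp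
        have e1 : ((KK σ - ([] : List Frame).length : ℕ) : ℝ) = 2 ^ (NN σ + 2) := by
          simp [KK]
        have e2 : (1 / 2 : ℝ) ^ Fn F = (1 / 2) ^ NN σ := by rw [e]; rfl
        rw [e1] at hcomp
        rw [e2] at hc
        have e3 : (2 : ℝ) ^ (NN σ + 2) / 2 * (1 / 2) ^ NN σ = 2 := by
          have : (2 : ℝ) ^ NN σ * (1 / 2) ^ NN σ = 1 := by rw [← mul_pow]; norm_num
          rw [pow_add]
          calc (2 : ℝ) ^ NN σ * 2 ^ 2 / 2 * (1 / 2) ^ NN σ = 2 * ((2 : ℝ) ^ NN σ * (1 / 2) ^ NN σ) := by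
                ring
            _ = 2 := by rw [this]; norm_num
        have h2 : (0 : ℝ) < 2 ^ (NN σ + 2) / 2 := by positivity
        have h3 := mul_le_mul_of_nonneg_left hc h2.le
        linarith
      | cons P L2 =>
        refine ⟨by rw [hS]; simp, ?_⟩
        rw [hS]
        refine SInv.idle hG ?_ (by rw [hWY, hWY]; exact hyn)
        exact ih2.sub hG hY (fun s _ => hWY s) (fun s hs => hWb s (by omega)) fun _ => hcomp
    | wait F L1 hL hr hc hs hS hp =>
      have hyn := yr_nochange hp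
      refine ⟨by rw [hS]; exact ih1, ?_⟩
      rw [hS]
      exact ih2.idle hG (by rw [hWY, hWY]; exact hyn)
    | create F L1 ζ hL hr hc hs hl hS hp =>
      have hyn := yr_nochange hp
      obtain ⟨-, t1, t2, t3⟩ := srch_some D hs
      refine ⟨by rw [hS]; simp, ?_⟩
      rw [hS]
      refine ⟨Nat.le_succ t, ?_, ?_, ?_, ih2⟩
      · exact Proc.Inv.start.idle (Phi_phi hG _) (by positivity) (by positivity)
          (by rw [hWY, hWY]; exact hyn)
      · rw [hL] at ih2 hl ⊢
        have := ih2.2.2.1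
        simp only [List.length_cons] at hl ⊢
        omega
      · rw [hL]
        exact ⟨ζ, t1, t2, rfl, rfl⟩
    | pushed F L1 ζ hL hr hc hs hl hS hp =>
      obtain ⟨-, t1, t2, t3⟩ := srch_some D hs
      refine ⟨by rw [hS]; exact ih1, ?_⟩
      rw [hS]
      simp only
      rw [hL] at ih2 hl ⊢
      obtain ⟨k1, k2, k3, k4, k5⟩ := ih2
      refine ⟨k1.trans (Nat.le_succ t), ?_, k3, k4, k5⟩
      have hk : KK σ - L1.length - 1 = 0 := by
        simp only [List.length_cons] at hl; omega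
      rw [hk] at k2 ⊢
      have hY1 : yr D σ (t + 1) = yr D σ t + (1 / 2) ^ subn σ F ζ.length := by
        rw [yr_succ]; simp [pw, hp]
      obtain ⟨c1, c2⟩ := close_iff.1 t2
      refine Proc.Inv.sub (ρ := (1 / 2) ^ ζ.length) (x1 := (1 / 2) ^ subn σ F ζ.length)
        (Phi_phi hG _) k2 (Nat.le_succ t)
        (by positivity) (by positivity) (by positivity) (pow_le_one₀ (by norm_num) (by norm_num))
        ?_ ?_ ?_ ?_
      · rw [subn_pow]
      · rw [hWY, hWY, hY1]
        have : (0 : ℝ) < (1 / 2) ^ subn σ F ζ.length := by positivity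
        linarith
      · intro hr
        rw [hWb (t + 1) ht, hWb t (by omega)] at hr ⊢
        exact phi_slope hG t1 c1 c2 hr
      · intro _
        simp only [Nat.cast_zero, zero_div, zero_mul]
        exact W.c_nonneg (Nat.le_succ t)

end Pool.Agent.H620R2.Om
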