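import Pool.Agent.H620R2.OmStep

set_option autoImplicit false

namespace Pool.Agent.H620R2.Om

open Pool.Agent.Helper227 Encodable Classical

variable (D : Data) (x0 : List Bool)

/-- requests for the Kraft-Chaitin construction -/
noncomputable def req (σ : List Bool) (t : ℕ) : Option (ℕ × List Bool) :=
  (push D σ t).map fun n => (n - (piS σ).length, x0)

theorem push_ge {σ : List Bool} {t n : ℕ} (h : push D σ t = some n) :
    (piS σ).length ≤ n := by
  cases stepCase D σ t with
  | drop L0 F L1 hL hF h1 hS hp => rw [hp] at h; cases h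
  | nil hL hS hp => rw [hp] at h; cases h
  | pop F L1 hL hr hc hS hp => rw [hp] at h; cases h
  | wait F L1 hL hr hc hs hS hp => rw [hp] at h; cases h
  | create F L1 ζ hL hr hc hs hl hS hp => rw [hp] at h; cases h
  | pushed F L1 ζ hL hr hc hs hl hS hp =>
    rw [hp] at h
    simp only [Option.some.injEq] at h
    rw [← h]
    unfold subn ee NN
    omega

theorem primrec_req : Primrec fun x : List Bool × ℕ => req D x0 x.1 x.2 := by
  unfold req
  refine Primrec.option_map (primrec_push D) ?_
  exact (Primrec.nat_sub.comp Primrec.snd (Primrec.list_length.comp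
    (primrec_piS.comp (Primrec.fst.comp Primrec.fst)))).pair (Primrec.const x0)

theorem wr_req (σ : List Bool) (t : ℕ) :
    KC.wr (req D x0 σ) t * (1 / 2) ^ (piS σ).length = pw D σ t := by
  unfold KC.wr req pw
  rcases h : push D σ t with _ | n
  · simp
  · simp only [Option.map_some, Option.elim_some]
    rw [← pow_add]
    congr 1
    have := push_ge D h
    omega

theorem wr_sum (σ : List Bool) (n : ℕ) :
    ∑ i ∈ Finset.range n, KC.wr (req D x0 σ) i ≤ 1 := by
  have h1 := yr_le (D := D) σ n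
  rw [yr_eq_sum] at h1
  have h2 : ∑ i ∈ Finset.range n, pw D σ i =
      (∑ i ∈ Finset.range n, KC.wr (req D x0 σ) i) * (1 / 2) ^ (piS σ).length := by
    rw [Finset.sum_mul]
    exact Finset.sum_congr rfl fun i _ => (wr_req D x0 σ i).symm
  rw [h2] at h1
  have h3 : (0 : ℝ) < (1 / 2) ^ (piS σ).length := by positivity
  by_contra hc
  push Not at hc
  have := mul_lt_mul_of_pos_right hc h3
  linarith

theorem primrec_kcst {α : Type} [Primcodable α] {rq : α → ℕ → Option (ℕ × List Bool)}
    (h : Primrec fun x : α × ℕ => rq x.1 x.2) : Primrec fun x : α × ℕ => KC.st (rq x.1) x.2 := by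
  have h1 : Primrec fun y : (α × ℕ) × (ℕ × List (List Bool)) =>
      (rq y.1.1 y.2.1).elim y.2.2 fun r => (KC.alloc y.2.2 r.1).2 := by
    refine primrec_elim (h.comp ((Primrec.fst.comp Primrec.fst).pair
      (Primrec.fst.comp Primrec.snd))) (Primrec.snd.comp Primrec.snd) ?_
    exact Primrec.snd.comp (KC.primrec_alloc.comp (Primrec.snd.comp (Primrec.snd.comp Primrec.fst))
      (Primrec.fst.comp Primrec.snd))
  have h2 : Primrec fun x : α × ℕ => (Nat.rec [[]] (fun n q => (rq x.1 n).elim q fun p =>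
      (KC.alloc q p.1).2) x.2 : List (List Bool)) :=
    Primrec.nat_rec' (f := fun x : α × ℕ => x.2) (g := fun _ => ([[]] : List (List Bool)))
      (h := fun x p => (rq x.1 p.1).elim p.2 fun r => (KC.alloc p.2 r.1).2) Primrec.snd
      (Primrec.const _) h1
  refine h2.of_eq fun x => ?_
  obtain ⟨a, n⟩ := x
  induction n with
  | zero => rfl
  | succ n ih => simp only [KC.st]; simp only at ih; rw [← ih]

theorem primrec_kccw {α : Type} [Primcodable α] {rq : α → ℕ → Option (ℕ × List Bool)}
    (h : Primrec fun x : α × ℕ => rq x.1 x.2) : Primrec fun x : α × ℕ => KC.cw (rq x.1) x.2 := by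
  unfold KC.cw
  refine primrec_elim h (Primrec.const []) ?_
  exact Primrec.fst.comp (KC.primrec_alloc.comp ((primrec_kcst h).comp Primrec.fst)
    (Primrec.fst.comp Primrec.snd))

theorem cc_prefix : ∀ (σ τ a b : List Bool), cc σ ++ a <+: cc τ ++ b → σ = τ ∧ a <+: b
  | [], [], a, b, h => by
    simp only [cc, List.cons_append, List.nil_append, List.cons_prefix_cons, true_and] at h
    exact ⟨rfl, h⟩
  | [], c :: τ, a, b, h => by
    simp [cc] at h
  | c :: σ, [], a, b, h => by
    simp [cc] at h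
  | c :: σ, d :: τ, a, b, h => by
    simp only [cc, List.cons_append, List.cons_prefix_cons, true_and] at h
    obtain ⟨h1, h2⟩ := cc_prefix σ τ a b h.2
    exact ⟨by rw [h.1, h1], h2⟩

/-- our machine -/
noncomputable def Mach : List Bool →. List Bool := fun s =>
  ⟨∃ σ t, (push D σ t).isSome ∧ s = cc σ ++ KC.cw (req D x0 σ) t, fun _ => x0⟩

theorem mem_Mach {s y : List Bool} : y ∈ Mach D x0 s ↔
    ∃ σ t, ((push D σ t).isSome ∧ s = cc σ ++ KC.cw (req D x0 σ) t) ∧ y = x0 := by
  constructor
  · rintro ⟨⟨σ, t, h1⟩, h2⟩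
    exact ⟨σ, t, h1, h2.symm⟩
  · rintro ⟨σ, t, h1, h2⟩
    exact ⟨⟨σ, t, h1⟩, h2.symm⟩

theorem req_isSome {σ : List Bool} {t : ℕ} (h : (push D σ t).isSome) :
    (req D x0 σ t).isSome := by
  unfold req; simpa using h

attribute [local irreducible] push KC.cw req

theorem isMachine_Mach : IsMachine (Mach D x0) := by
  constructor
  · refine partrec_of_s1 ?_
    have h1 : PrimrecPred fun x : ((List Bool × List Bool) × List Bool) × ℕ =>
        ((push D x.1.2 x.2).isSome ∧ x.1.1.1 = cc x.1.2 ++ KC.cw (req D x0 x.1.2) x.2) ∧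
          x.1.1.2 = x0 := by
      have e1 : Primrec fun x : ((List Bool × List Bool) × List Bool) × ℕ => (x.1.2, x.2) :=
        (Primrec.snd.comp Primrec.fst).pair Primrec.snd
      refine PrimrecPred.and (PrimrecPred.and ?_ ?_) ?_
      · exact Primrec.eq.comp (Primrec.option_isSome.comp ((primrec_push D).comp e1))
          (Primrec.const true)
      · exact Primrec.eq.comp (Primrec.fst.comp (Primrec.fst.comp Primrec.fst))
          (Primrec.list_append.comp (primrec_cc.comp (Primrec.snd.comp Primrec.fst))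
            ((primrec_kccw (primrec_req D x0)).comp e1))
      · exact Primrec.eq.comp (Primrec.snd.comp (Primrec.fst.comp Primrec.fst)) (Primrec.const x0)
    exact (S1.ex (p := fun (x : List Bool × List Bool) (σ : List Bool) => ∃ t,
      ((push D σ t).isSome ∧ x.1 = cc σ ++ KC.cw (req D x0 σ) t) ∧ x.2 = x0)
      (S1.ex (S1.of_prim h1))).of_eq fun x => (mem_Mach D x0).symm
  · rintro s s' ⟨σ, t, h1, h2⟩ ⟨σ', t', h3, h4⟩ h
    rw [h2, h4] at h
    obtain ⟨rfl, h5⟩ := cc_prefix _ _ _ _ h
    rw [h2, h4]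
    rcases Nat.lt_trichotomy t t' with hlt | rfl | hlt
    · exact absurd h5 (KC.cw_inc (wr_sum D x0 σ) hlt (req_isSome D x0 h1)
        (req_isSome D x0 h3)).1
    · rfl
    · exact absurd h5 (KC.cw_inc (wr_sum D x0 σ) hlt (req_isSome D x0 h3)
        (req_isSome D x0 h1)).2

theorem mem_cylinder {U : List Bool →. List Bool} {σ : List Bool}
    (h : ∀ p, U (σ ++ p) = Mach D x0 p) {q y : List Bool} :
    y ∈ U (piS σ ++ q) ↔ y = x0 ∧ ∃ t, (push D σ t).isSome ∧ q = KC.cw (req D x0 σ) t := by
  unfold piS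
  rw [List.append_assoc, h, mem_Mach]
  constructor
  · rintro ⟨σ', t, ⟨h1, h2⟩, h3⟩
    have h5 : cc σ ++ q <+: cc σ' ++ KC.cw (req D x0 σ') t := by
      rw [h2]
    obtain ⟨rfl, h4⟩ := cc_prefix _ _ _ _ h5
    exact ⟨h3, t, h1, List.append_cancel_left h2⟩
  · rintro ⟨h1, t, h2, rfl⟩
    exact ⟨σ, t, ⟨h2, rfl⟩, h1⟩

end Pool.Agent.H620R2.Om
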