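import Pool.Agent.H620R2.OmProc

set_option autoImplicit false

namespace Pool.Agent.H620R2.Om

open Pool.Agent.Helper227 Encodable Classical MeasureTheory Set

/-- enlarged interval of a string -/
noncomputable def IV (ζ : List Bool) : Set ℝ :=
  Icc (((val ζ : ℝ) - 2) / 2 ^ ζ.length) (((val ζ : ℝ) + 3) / 2 ^ ζ.length)

/-- enlarged test -/
noncomputable def VS (G : ℕ × List Bool → Prop) (j : ℕ) : Set ℝ :=
  ⋃ ζ : {ζ : List Bool // G (j, ζ)}, IV ζ.1

/-- the measure of the part of the enlarged test below a point -/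
noncomputable def phi (G : ℕ × List Bool → Prop) (j : ℕ) (y : ℝ) : ℝ :=
  (volume (VS G j ∩ Iic y)).toReal

/-- the condition on the test -/
def IsTest (G : ℕ × List Bool → Prop) : Prop :=
  ∀ j, ∑' ζ : {ζ : List Bool // G (j, ζ)}, (1 / 2 : ENNReal) ^ ζ.1.length ≤ (1 / 2) ^ j

theorem vol_IV (ζ : List Bool) : volume (IV ζ) = 5 * (1 / 2 : ENNReal) ^ ζ.length := by
  unfold IV
  rw [Real.volume_Icc]
  have : ((val ζ : ℝ) + 3) / 2 ^ ζ.length - ((val ζ : ℝ) - 2) / 2 ^ ζ.length =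
      5 * (1 / 2) ^ ζ.length := by
    rw [div_pow, one_pow]; ring
  rw [this, ENNReal.ofReal_mul (by norm_num), ENNReal.ofReal_pow (by norm_num),
    ENNReal.ofReal_div_of_pos (by norm_num)]
  simp

variable {G : ℕ × List Bool → Prop}

theorem vol_VS (hG : IsTest G) (j : ℕ) : volume (VS G j) ≤ 5 * (1 / 2 : ENNReal) ^ j := by
  unfold VS
  refine (measure_iUnion_le _).trans ?_
  simp only [vol_IV]
  rw [ENNReal.tsum_mul_left]
  exact mul_le_mul_right (hG j) _

theorem vol_ne_top (hG : IsTest G) (j : ℕ) (s : Set ℝ) : volume (VS G j ∩ s) ≠ ⊤ := by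
  refine ne_top_of_le_ne_top ?_ ((measure_mono inter_subset_left).trans (vol_VS hG j))
  exact ENNReal.mul_ne_top (by norm_num) (ENNReal.pow_ne_top (by norm_num))

theorem Phi_phi (hG : IsTest G) (j : ℕ) : Proc.Phi (phi G j) (5 * (1 / 2) ^ j) where
  mono := by
    intro y y' h
    unfold phi
    exact ENNReal.toReal_mono (vol_ne_top hG j _)
      (measure_mono (inter_subset_inter_right _ (Iic_subset_Iic.2 h)))
  lip := by
    intro y y' h
    unfold phi
    have h1 : VS G j ∩ Iic y ⊆ (VS G j ∩ Iic y') ∪ Ioc y' y := by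
      rintro w ⟨h2, h3⟩
      rcases le_or_gt w y' with h4 | h4
      · exact Or.inl ⟨h2, h4⟩
      · exact Or.inr ⟨h4, h3⟩
    have h2 : volume (VS G j ∩ Iic y) ≤ volume (VS G j ∩ Iic y') + volume (Ioc y' y) :=
      (measure_mono h1).trans (measure_union_le _ _)
    rw [Real.volume_Ioc] at h2
    have h3 := ENNReal.toReal_mono (ENNReal.add_ne_top.2 ⟨vol_ne_top hG j _,
      ENNReal.ofReal_ne_top⟩) h2
    rw [ENNReal.toReal_add (vol_ne_top hG j _) ENNReal.ofReal_ne_top,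
      ENNReal.toReal_ofReal (by linarith)] at h3
    linarith
  nonneg := fun y => ENNReal.toReal_nonneg
  le := by
    intro y
    unfold phi
    have h := (measure_mono (inter_subset_left (t := Iic y))).trans (vol_VS hG j)
    have h2 := ENNReal.toReal_mono (ENNReal.mul_ne_top (by norm_num)
      (ENNReal.pow_ne_top (by norm_num))) h
    rw [ENNReal.toReal_mul, ENNReal.toReal_pow] at h2
    simpa using h2

theorem phi_slope_aux (hG : IsTest G) {j : ℕ} {a b : ℝ} (hab : a ≤ b) (h : Icc a b ⊆ VS G j) :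
    phi G j b - phi G j a = b - a := by
  unfold phi
  have h1 : VS G j ∩ Iic b = (VS G j ∩ Iic a) ∪ Ioc a b := by
    ext w
    constructor
    · rintro ⟨h2, h3⟩
      rcases le_or_gt w a with h4 | h4
      · exact Or.inl ⟨h2, h4⟩
      · exact Or.inr ⟨h4, h3⟩
    · rintro (⟨h2, h3⟩ | ⟨h2, h3⟩)
      · exact ⟨h2, le_trans h3 hab⟩
      · exact ⟨h ⟨h2.le, h3⟩, h3⟩
  have h2 : Disjoint (VS G j ∩ Iic a) (Ioc a b) := by
    rw [Set.disjoint_left]
    rintro w ⟨_, h3⟩ ⟨h4, _⟩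
    exact absurd h3 (not_le.2 h4)
  rw [h1, measure_union h2 measurableSet_Ioc, Real.volume_Ioc,
    ENNReal.toReal_add (vol_ne_top hG j _) ENNReal.ofReal_ne_top,
    ENNReal.toReal_ofReal (by linarith)]
  ring

theorem phi_slope (hG : IsTest G) {j : ℕ} {a b : ℝ} {ζ : List Bool} (hζ : G (j, ζ))
    (h1 : ((val ζ : ℝ) - 1) / 2 ^ ζ.length ≤ a) (h2 : a ≤ ((val ζ : ℝ) + 2) / 2 ^ ζ.length)
    (h3 : |b - a| ≤ (1 / 2) ^ ζ.length) : phi G j b - phi G j a = b - a := by
  have e : ((1 / 2 : ℝ)) ^ ζ.length = 1 / 2 ^ ζ.length := by rw [div_pow, one_pow]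
  rw [e] at h3
  obtain ⟨h4, h5⟩ := abs_le.1 h3
  have e1 : ((val ζ : ℝ) - 1) / 2 ^ ζ.length = ((val ζ : ℝ) - 2) / 2 ^ ζ.length +
      1 / 2 ^ ζ.length := by ring
  have e2 : ((val ζ : ℝ) + 3) / 2 ^ ζ.length = ((val ζ : ℝ) + 2) / 2 ^ ζ.length +
      1 / 2 ^ ζ.length := by ring
  have p : (0 : ℝ) < 1 / 2 ^ ζ.length := by positivity
  have hsub : IV ζ ⊆ VS G j := subset_iUnion (fun ζ : {ζ : List Bool // G (j, ζ)} => IV ζ.1) ⟨ζ, hζ⟩
  have ha : a ∈ IV ζ := ⟨by linarith, by linarith⟩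
  have hb : b ∈ IV ζ := ⟨by linarith, by linarith⟩
  rcases le_total a b with hab | hab
  · exact phi_slope_aux hG hab ((Icc_subset_Icc ha.1 hb.2).trans hsub)
  · have := phi_slope_aux hG hab ((Icc_subset_Icc hb.1 ha.2).trans hsub)
    linarith

end Pool.Agent.H620R2.Om
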