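import Pool.Agent.H620R2.OmMach

set_option autoImplicit false

namespace Pool.Agent.H620R2.Om

open Pool.Agent.Helper227 Encodable Classical

theorem length_le_encode : ∀ l : List Bool, l.length ≤ encode l
  | [] => Nat.zero_le _
  | b :: l => by
    have ih := length_le_encode l
    rw [Encodable.encode_list_cons]
    have : encode l ≤ Nat.pair (encode b) (encode l) := Nat.right_le_pair _ _
    simp only [List.length_cons]
    omega

theorem cands_nodup (t : ℕ) : (cands t).Nodup := by
  unfold cands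
  refine List.Nodup.filterMap ?_ List.nodup_range
  intro a a' b h1 h2
  exact (mem_decode₂.1 h1).symm.trans (mem_decode₂.1 h2)

/-- strings with code less than `t` -/
noncomputable def cF (t : ℕ) : Finset (List Bool) := (cands t).toFinset

theorem mem_cF {t : ℕ} {p : List Bool} : p ∈ cF t ↔ encode p < t := by
  rw [cF, List.mem_toFinset, mem_cands]

theorem cF_mono {s t : ℕ} (h : s ≤ t) : cF s ⊆ cF t := by
  intro p hp
  rw [mem_cF] at hp ⊢
  omega

variable (D : Data) (σ : List Bool)

/-- programs of `z` found before stage `t` -/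
noncomputable def progs (t : ℕ) (z : List Bool) : Finset (List Bool) :=
  (cF t).filter fun p => z ∈ cF t ∧ D.Q (p, z) t ∧ ¬ (p.take (piS σ).length = piS σ)

/-- weight of `z` at stage `t` -/
noncomputable def wR (t : ℕ) (z : List Bool) : ℝ := ∑ p ∈ progs D σ t z, (1 / 2 : ℝ) ^ p.length

theorem list_sum_eq {t : ℕ} (f : List Bool → ℕ) :
    ((cands t).map f).sum = ∑ p ∈ cF t, f p := by
  rw [cF, List.sum_toFinset _ (cands_nodup t)]

theorem wN_eq {t : ℕ} {z : List Bool} (hz : z ∈ cF t) :
    (wN D σ t z : ℝ) / 2 ^ t = wR D σ t z := by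
  unfold wN wR
  rw [list_sum_eq, progs, Finset.sum_filter]
  push_cast
  rw [Finset.sum_div]
  refine Finset.sum_congr rfl fun p hp => ?_
  by_cases h : D.Q (p, z) t ∧ ¬ (p.take (piS σ).length = piS σ)
  · rw [if_pos h, if_pos ⟨hz, h⟩]
    have h1 : p.length ≤ t := by
      have := length_le_encode p
      rw [mem_cF] at hp
      omega
    have e1 : (2 : ℝ) ^ t = 2 ^ (t - p.length) * 2 ^ p.length := by
      rw [← pow_add]; congr 1; omega
    rw [e1, div_pow, one_pow]
    field_simp
  · rw [if_neg h, if_neg (fun hh => h hh.2), zero_div]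

/-- the approximation at stage `t` -/
noncomputable def br (t : ℕ) : ℝ := ((BO D σ t + (St D σ t).1 : ℕ) : ℝ) / 2 ^ t

theorem br_eq (t : ℕ) : br D σ t = yr D σ t + ∑ z ∈ cF t with ¬ D.R z t, wR D σ t z := by
  unfold br yr BO
  rw [list_sum_eq]
  push_cast
  rw [add_div, add_comm, add_right_inj, Finset.sum_div, Finset.sum_filter]
  refine Finset.sum_congr rfl fun z hz => ?_
  by_cases h : D.R z t
  · rw [if_pos h, if_neg (not_not.2 h), zero_div]
  · rw [if_neg h, if_pos h, wN_eq D σ hz]

theorem progs_mono {s t : ℕ} (h : s ≤ t) (z : List Bool) : progs D σ s z ⊆ progs D σ t z := by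
  intro p hp
  simp only [progs, Finset.mem_filter] at hp ⊢
  exact ⟨cF_mono h hp.1, cF_mono h hp.2.1, D.mQ _ _ _ h hp.2.2.1, hp.2.2.2⟩

theorem wR_nonneg (t : ℕ) (z : List Bool) : 0 ≤ wR D σ t z :=
  Finset.sum_nonneg fun _ _ => by positivity

theorem wR_mono {s t : ℕ} (h : s ≤ t) (z : List Bool) : wR D σ s z ≤ wR D σ t z :=
  Finset.sum_le_sum_of_subset_of_nonneg (progs_mono D σ h z) fun _ _ _ => by positivity

theorem wR_gran (t : ℕ) (z : List Bool) : wR D σ t z = 0 ∨ (1 / 2 : ℝ) ^ t ≤ wR D σ t z := by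
  rcases (progs D σ t z).eq_empty_or_nonempty with h | ⟨p, hp⟩
  · left; rw [wR, h, Finset.sum_empty]
  · right
    have h1 : (1 / 2 : ℝ) ^ p.length ≤ wR D σ t z :=
      Finset.single_le_sum (f := fun p : List Bool => (1 / 2 : ℝ) ^ p.length)
        (fun _ _ => by positivity) hp
    refine le_trans (pow_le_pow_of_le_one (by norm_num) (by norm_num) ?_) h1
    have := length_le_encode p
    have h2 := mem_cF.1 (Finset.mem_filter.1 hp).1
    omega

/-- frozen weight -/
noncomputable def wF : ℕ → List Bool → ℝ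
  | 0, _ => 0
  | t + 1, z => if D.R z (t + 1) then wF t z else wR D σ (t + 1) z

theorem wR_zero (z : List Bool) : wR D σ 0 z = 0 := by
  have : progs D σ 0 z = ∅ := by
    ext p
    simp only [progs, Finset.mem_filter, mem_cF]
    constructor
    · rintro ⟨h, _⟩; omega
    · intro h; exact absurd h (Finset.notMem_empty p)
  rw [wR, this, Finset.sum_empty]

theorem wF_alive {t : ℕ} {z : List Bool} (h : ¬ D.R z t) : wF D σ t z = wR D σ t z := by
  cases t with
  | zero => rw [wF, wR_zero]
  | succ t => rw [wF, if_neg h]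

theorem wF_le (t : ℕ) (z : List Bool) : wF D σ t z ≤ wR D σ t z := by
  induction t with
  | zero => rw [wF, wR_zero]
  | succ t ih =>
    rw [wF]
    split_ifs
    · exact ih.trans (wR_mono D σ (Nat.le_succ t) z)
    · exact le_refl _

theorem wF_nonneg (t : ℕ) (z : List Bool) : 0 ≤ wF D σ t z := by
  induction t with
  | zero => exact le_refl _
  | succ t ih =>
    rw [wF]
    split_ifs
    · exact ih
    · exact wR_nonneg D σ _ z

theorem wF_gran (t : ℕ) (z : List Bool) : wF D σ t z = 0 ∨ (1 / 2 : ℝ) ^ t ≤ wF D σ t z := by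
  induction t with
  | zero => left; rfl
  | succ t ih =>
    rw [wF]
    split_ifs
    · rcases ih with h | h
      · exact Or.inl h
      · right
        refine le_trans ?_ h
        exact pow_le_pow_of_le_one (by norm_num) (by norm_num) (Nat.le_succ t)
    · exact wR_gran D σ _ z

theorem kraft_real {U : List Bool →. List Bool} (hU : IsMachine U) (F : Finset (List Bool))
    (hF : ∀ p ∈ F, (U p).Dom) : ∑ p ∈ F, (1 / 2 : ℝ) ^ p.length ≤ 1 := by
  have h := kraft (P := fun p => (U p).Dom) (fun σ τ => hU.2 σ τ) F hF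
  have e : ∀ p : List Bool, (1 / 2 : ENNReal) ^ p.length = ENNReal.ofReal ((1 / 2 : ℝ) ^ p.length) := by
    intro p
    rw [ENNReal.ofReal_pow (by norm_num), ENNReal.ofReal_div_of_pos (by norm_num)]
    simp
  simp only [e] at h
  rw [← ENNReal.ofReal_sum_of_nonneg (fun _ _ => by positivity)] at h
  exact ENNReal.ofReal_le_one.1 h

theorem wR_sum_le {U : List Bool →. List Bool} (hU : IsMachine U)
    (hQ : ∀ p z t, D.Q (p, z) t → z ∈ U p) (S : Finset (List Bool)) (t : ℕ) :
    ∑ z ∈ S, wR D σ t z ≤ 1 := by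
  have hdisj : ∀ z z', z ≠ z' → Disjoint (progs D σ t z) (progs D σ t z') := by
    intro z z' hne
    rw [Finset.disjoint_left]
    intro p h1 h2
    simp only [progs, Finset.mem_filter] at h1 h2
    exact hne (Part.mem_unique (hQ _ _ _ h1.2.2.1) (hQ _ _ _ h2.2.2.1))
  unfold wR
  rw [← Finset.sum_biUnion (fun z _ z' _ h => hdisj z z' h)]
  refine kraft_real hU _ fun p hp => ?_
  obtain ⟨z, hz, h⟩ := Finset.mem_biUnion.1 hp
  simp only [progs, Finset.mem_filter] at h
  exact Part.dom_iff_mem.2 ⟨z, hQ _ _ _ h.2.2.1⟩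

/-- the weight process -/
noncomputable def proc {U : List Bool →. List Bool} (hU : IsMachine U)
    (hQ : ∀ p z t, D.Q (p, z) t → z ∈ U p) (S : Finset (List Bool)) : Proc (List Bool) where
  S := S
  w := wF D σ
  alive := fun t z => ¬ D.R z t
  Y := yr D σ
  w_nonneg := wF_nonneg D σ
  w_mono' := by
    intro t z
    conv_rhs => rw [wF]
    split_ifs
    · exact le_refl _
    · exact (wF_le D σ t z).trans (wR_mono D σ (Nat.le_succ t) z)
  alive_anti' := fun t z h h' => h (D.mR _ _ _ (Nat.le_succ t) h')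
  frozen' := by
    intro t z h
    rw [not_not] at h
    rw [wF, if_pos (D.mR _ _ _ (Nat.le_succ t) h)]
  sum_le := fun t => (Finset.sum_le_sum fun z _ => wF_le D σ t z).trans
    (wR_sum_le D σ hU hQ S t)
  gran := wF_gran D σ
  Y_mono' := fun t => yr_mono D σ (Nat.le_succ t)
  Y_nonneg := yr_nonneg D σ
  Y_le := fun t => (yr_le σ t).trans (pow_le_one₀ (by norm_num) (by norm_num))

theorem wR_eq_zero_of_notMem {t : ℕ} {z : List Bool} (h : z ∉ cF t) : wR D σ t z = 0 := by
  have : progs D σ t z = ∅ := by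
    ext p
    simp only [progs, Finset.mem_filter]
    constructor
    · rintro ⟨_, h1, _⟩; exact absurd h1 h
    · intro h; exact absurd h (Finset.notMem_empty p)
  rw [wR, this, Finset.sum_empty]

theorem proc_b {U : List Bool →. List Bool} (hU : IsMachine U)
    (hQ : ∀ p z t, D.Q (p, z) t → z ∈ U p) {T t : ℕ} (h : t ≤ T) :
    (proc D σ hU hQ (cF T)).b t = br D σ t := by
  have h0 : (proc D σ hU hQ (cF T)).b t = yr D σ t + ∑ z ∈ cF T with ¬ D.R z t, wF D σ t z := by
    unfold Proc.b
    refine congrArg₂ (· + ·) rfl ?_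
    refine Finset.sum_congr ?_ (fun _ _ => rfl)
    ext z
    simp only [Finset.mem_filter]
    exact Iff.rfl
  rw [h0, br_eq, add_right_inj]
  have h1 : ∑ z ∈ cF T with ¬ D.R z t, wF D σ t z = ∑ z ∈ cF T with ¬ D.R z t, wR D σ t z :=
    Finset.sum_congr rfl fun z hz => wF_alive D σ (Finset.mem_filter.1 hz).2
  rw [h1]
  symm
  refine Finset.sum_subset (Finset.filter_subset_filter _ (cF_mono h)) fun z h2 h3 => ?_
  refine wR_eq_zero_of_notMem D σ fun h4 => h3 ?_
  exact Finset.mem_filter.2 ⟨h4, (Finset.mem_filter.1 h2).2⟩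

theorem br_nonneg (t : ℕ) : 0 ≤ br D σ t := by
  unfold br; positivity

theorem br_le {U : List Bool →. List Bool} (hU : IsMachine U)
    (hQ : ∀ p z t, D.Q (p, z) t → z ∈ U p) (t : ℕ) : br D σ t ≤ 2 := by
  rw [br_eq]
  have h1 : ∑ z ∈ cF t with ¬ D.R z t, wR D σ t z ≤ 1 := wR_sum_le D σ hU hQ _ t
  have h2 := yr_le (D := D) σ t
  have h3 : (1 / 2 : ℝ) ^ (piS σ).length ≤ 1 := pow_le_one₀ (by norm_num) (by norm_num)
  linarith

end Pool.Agent.H620R2.Om
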