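import Pool.Agent.H620R2.OmAlg

set_option autoImplicit false

namespace Pool.Agent.H620R2.Om

open Pool.Agent.Helper227 Encodable Classical

variable (D : Data)

theorem surv_spec (t b : ℕ) (L : List Frame) :
    (surv t b L = (L, true) ∧ ∀ F ∈ L, regOk t b F) ∨
    ∃ L0 F L1, L = L0 ++ F :: L1 ∧ ¬ regOk t b F ∧ (∀ F' ∈ L1, regOk t b F') ∧
      surv t b L = (L1, false) := by
  induction L with
  | nil => left; simp [surv]
  | cons F L ih =>
    have e : surv t b (F :: L) = if (surv t b L).2 = true ∧ regOk t b F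
        then (F :: (surv t b L).1, true) else ((surv t b L).1, false) := rfl
    rcases ih with ⟨h1, h2⟩ | ⟨L0, F', L1, h1, h2, h3, h4⟩
    · rw [h1] at e
      by_cases h : regOk t b F
      · left
        rw [if_pos ⟨rfl, h⟩] at e
        refine ⟨e, ?_⟩
        intro F' hF'
        rcases List.mem_cons.1 hF' with rfl | h'
        · exact h
        · exact h2 _ h'
      · right
        rw [if_neg (fun hh => h hh.2)] at e
        exact ⟨[], F, L, rfl, h, h2, e⟩
    · right
      rw [h4, if_neg (fun hh => by cases hh.1)] at e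
      exact ⟨F :: L0, F', L1, by rw [h1]; rfl, h2, h3, e⟩

/-- the possible steps of the strategy -/
inductive StepCase (σ : List Bool) (t : ℕ) : Prop
  | drop (L0 : List Frame) (F : Frame) (L1 : List Frame)
      (hL : (St D σ t).2 = L0 ++ F :: L1)
      (hF : ¬ regOk t (BO D σ t + (St D σ t).1) F)
      (h1 : ∀ F' ∈ L1, regOk t (BO D σ t + (St D σ t).1) F')
      (hS : St D σ (t + 1) = (2 * (St D σ t).1, L1)) (hp : push D σ t = none)
  | nil (hL : (St D σ t).2 = []) (hS : St D σ (t + 1) = (2 * (St D σ t).1, []))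
      (hp : push D σ t = none)
  | pop (F : Frame) (L1 : List Frame) (hL : (St D σ t).2 = F :: L1)
      (hr : ∀ F' ∈ (St D σ t).2, regOk t (BO D σ t + (St D σ t).1) F')
      (hc : compl t (St D σ t).1 F)
      (hS : St D σ (t + 1) = (2 * (St D σ t).1, L1)) (hp : push D σ t = none)
  | wait (F : Frame) (L1 : List Frame) (hL : (St D σ t).2 = F :: L1)
      (hr : ∀ F' ∈ (St D σ t).2, regOk t (BO D σ t + (St D σ t).1) F')
      (hc : ¬ compl t (St D σ t).1 F)
      (hs : srch D σ t (BO D σ t + (St D σ t).1) F = none)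
      (hS : St D σ (t + 1) = (2 * (St D σ t).1, (St D σ t).2)) (hp : push D σ t = none)
  | pushed (F : Frame) (L1 : List Frame) (ζ : List Bool) (hL : (St D σ t).2 = F :: L1)
      (hr : ∀ F' ∈ (St D σ t).2, regOk t (BO D σ t + (St D σ t).1) F')
      (hc : ¬ compl t (St D σ t).1 F)
      (hs : srch D σ t (BO D σ t + (St D σ t).1) F = some ζ)
      (hl : (St D σ t).2.length = KK σ)
      (hS : St D σ (t + 1) = (2 * ((St D σ t).1 + 2 ^ (t - subn σ F ζ.length)), (St D σ t).2))
      (hp : push D σ t = some (subn σ F ζ.length))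
  | create (F : Frame) (L1 : List Frame) (ζ : List Bool) (hL : (St D σ t).2 = F :: L1)
      (hr : ∀ F' ∈ (St D σ t).2, regOk t (BO D σ t + (St D σ t).1) F')
      (hc : ¬ compl t (St D σ t).1 F)
      (hs : srch D σ t (BO D σ t + (St D σ t).1) F = some ζ)
      (hl : (St D σ t).2.length ≠ KK σ)
      (hS : St D σ (t + 1) = (2 * (St D σ t).1,
        (t, subn σ F ζ.length, ζ.length, (St D σ t).1, BO D σ t + (St D σ t).1) :: (St D σ t).2))
      (hp : push D σ t = none)

theorem stepCase (σ : List Bool) (t : ℕ) : StepCase D σ t := by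
  have hS : St D σ (t + 1) = (stepF D σ t (St D σ t)).1 := rfl
  have hp : push D σ t = (stepF D σ t (St D σ t)).2 := rfl
  unfold stepF at hS hp
  rcases surv_spec t (BO D σ t + (St D σ t).1) (St D σ t).2 with ⟨h1, h2⟩ | ⟨L0, F, L1, h1, h2, h3, h4⟩
  · rw [h1, if_neg (by simp)] at hS hp
    rcases hL : (St D σ t).2 with _ | ⟨F, L1⟩
    · rw [hL] at hS hp
      exact StepCase.nil hL hS hp
    · rw [hL] at hS hp
      simp only [List.head?_cons, Option.elim_some, List.tail_cons] at hS hp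
      by_cases hc : compl t (St D σ t).1 F
      · rw [if_pos hc] at hS hp
        exact StepCase.pop F L1 hL h2 hc hS hp
      · rw [if_neg hc] at hS hp
        rcases hs : srch D σ t (BO D σ t + (St D σ t).1) F with _ | ζ
        · rw [hs] at hS hp
          simp only [Option.elim_none] at hS hp
          exact StepCase.wait F L1 hL h2 hc hs (by rw [hS, hL]) hp
        · rw [hs] at hS hp
          simp only [Option.elim_some] at hS hp
          by_cases hl : (F :: L1).length = KK σ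
          · rw [if_pos hl] at hS hp
            exact StepCase.pushed F L1 ζ hL h2 hc hs (by rw [hL]; exact hl) (by rw [hS, hL]) hp
          · rw [if_neg hl] at hS hp
            exact StepCase.create F L1 ζ hL h2 hc hs (by rw [hL]; exact hl) (by rw [hS, hL]) hp
  · rw [h4, if_pos rfl] at hS hp
    exact StepCase.drop L0 F L1 h1 h2 h3 hS hp

/-! ### Real valued versions -/

theorem regOk_iff {t b : ℕ} {F : Frame} (h : Fs F ≤ t) :
    regOk t b F ↔ |(b : ℝ) / 2 ^ t - (Fb F : ℝ) / 2 ^ Fs F| ≤ (1 / 2) ^ Fr F := by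
  have e1 : (2 : ℝ) ^ t = 2 ^ Fs F * 2 ^ (t - Fs F) := by rw [← pow_add]; congr 1; omega
  have p1 : (0 : ℝ) < 2 ^ Fs F := by positivity
  have p2 : (0 : ℝ) < 2 ^ (t - Fs F) := by positivity
  have p3 : (0 : ℝ) < 2 ^ Fr F := by positivity
  have p4 : (0 : ℝ) < 2 ^ t * 2 ^ Fr F := by positivity
  have e2 : ((1 / 2 : ℝ)) ^ Fr F = 1 / 2 ^ Fr F := by rw [div_pow, one_pow]
  have e3 : (b : ℝ) * 2 ^ Fr F - ((Fb F : ℝ) * 2 ^ (t - Fs F) * 2 ^ Fr F + 2 ^ t) =
      ((b : ℝ) / 2 ^ t - (Fb F : ℝ) / 2 ^ Fs F - (1 / 2) ^ Fr F) * (2 ^ t * 2 ^ Fr F) := by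
    rw [e2, e1]; field_simp; ring
  have e4 : (Fb F : ℝ) * 2 ^ (t - Fs F) * 2 ^ Fr F - ((b : ℝ) * 2 ^ Fr F + 2 ^ t) =
      (-((b : ℝ) / 2 ^ t - (Fb F : ℝ) / 2 ^ Fs F) - (1 / 2) ^ Fr F) * (2 ^ t * 2 ^ Fr F) := by
    rw [e2, e1]; field_simp; ring
  unfold regOk
  rw [abs_le]
  constructor
  · rintro ⟨h1, h2⟩
    have h1' : (b : ℝ) * 2 ^ Fr F ≤ (Fb F : ℝ) * 2 ^ (t - Fs F) * 2 ^ Fr F + 2 ^ t := by
      exact_mod_cast h1
    have h2' : (Fb F : ℝ) * 2 ^ (t - Fs F) * 2 ^ Fr F ≤ (b : ℝ) * 2 ^ Fr F + 2 ^ t := by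
      exact_mod_cast h2
    constructor
    · have : (-((b : ℝ) / 2 ^ t - (Fb F : ℝ) / 2 ^ Fs F) - (1 / 2) ^ Fr F) ≤ 0 := by
        by_contra hc
        push Not at hc
        have := mul_pos hc p4
        linarith
      linarith
    · have : ((b : ℝ) / 2 ^ t - (Fb F : ℝ) / 2 ^ Fs F - (1 / 2) ^ Fr F) ≤ 0 := by
        by_contra hc
        push Not at hc
        have := mul_pos hc p4
        linarith
      linarith
  · rintro ⟨h1, h2⟩
    have h3 : ((b : ℝ) / 2 ^ t - (Fb F : ℝ) / 2 ^ Fs F - (1 / 2) ^ Fr F) * (2 ^ t * 2 ^ Fr F) ≤ 0 :=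
      mul_nonpos_of_nonpos_of_nonneg (by linarith) p4.le
    have h4 : (-((b : ℝ) / 2 ^ t - (Fb F : ℝ) / 2 ^ Fs F) - (1 / 2) ^ Fr F) *
        (2 ^ t * 2 ^ Fr F) ≤ 0 := mul_nonpos_of_nonpos_of_nonneg (by linarith) p4.le
    constructor
    · have : (b : ℝ) * 2 ^ Fr F ≤ (Fb F : ℝ) * 2 ^ (t - Fs F) * 2 ^ Fr F + 2 ^ t := by linarith
      exact_mod_cast this
    · have : (Fb F : ℝ) * 2 ^ (t - Fs F) * 2 ^ Fr F ≤ (b : ℝ) * 2 ^ Fr F + 2 ^ t := by linarith
      exact_mod_cast this

theorem compl_iff {t Y : ℕ} {F : Frame} (h : Fs F ≤ t) :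
    compl t Y F ↔ (1 / 2 : ℝ) ^ Fn F ≤ (Y : ℝ) / 2 ^ t - (Fy F : ℝ) / 2 ^ Fs F := by
  have e1 : (2 : ℝ) ^ t = 2 ^ Fs F * 2 ^ (t - Fs F) := by rw [← pow_add]; congr 1; omega
  have p1 : (0 : ℝ) < 2 ^ Fs F := by positivity
  have p2 : (0 : ℝ) < 2 ^ (t - Fs F) := by positivity
  have p3 : (0 : ℝ) < 2 ^ Fn F := by positivity
  have p4 : (0 : ℝ) < 2 ^ t * 2 ^ Fn F := by positivity
  have e2 : ((1 / 2 : ℝ)) ^ Fn F = 1 / 2 ^ Fn F := by rw [div_pow, one_pow]
  have e3 : (2 : ℝ) ^ t + (Fy F : ℝ) * 2 ^ (t - Fs F) * 2 ^ Fn F - (Y : ℝ) * 2 ^ Fn F =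
      ((1 / 2) ^ Fn F - ((Y : ℝ) / 2 ^ t - (Fy F : ℝ) / 2 ^ Fs F)) * (2 ^ t * 2 ^ Fn F) := by
    rw [e2, e1]; field_simp; ring
  unfold compl
  constructor
  · intro h1
    have h1' : (2 : ℝ) ^ t + (Fy F : ℝ) * 2 ^ (t - Fs F) * 2 ^ Fn F ≤ (Y : ℝ) * 2 ^ Fn F := by
      exact_mod_cast h1
    by_contra hc
    push Not at hc
    have := mul_pos (sub_pos.2 hc) p4
    linarith
  · intro h1
    have h3 : ((1 / 2) ^ Fn F - ((Y : ℝ) / 2 ^ t - (Fy F : ℝ) / 2 ^ Fs F)) *
        (2 ^ t * 2 ^ Fn F) ≤ 0 := mul_nonpos_of_nonpos_of_nonneg (by linarith) p4.le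
    have : (2 : ℝ) ^ t + (Fy F : ℝ) * 2 ^ (t - Fs F) * 2 ^ Fn F ≤ (Y : ℝ) * 2 ^ Fn F := by linarith
    exact_mod_cast this

theorem close_iff {t b : ℕ} {ζ : List Bool} :
    close t b ζ ↔ ((val ζ : ℝ) - 1) / 2 ^ ζ.length ≤ (b : ℝ) / 2 ^ t ∧
      (b : ℝ) / 2 ^ t ≤ ((val ζ : ℝ) + 2) / 2 ^ ζ.length := by
  have p1 : (0 : ℝ) < 2 ^ t := by positivity
  have p2 : (0 : ℝ) < 2 ^ ζ.length := by positivity
  unfold close
  rw [div_le_div_iff₀ p2 p1, div_le_div_iff₀ p1 p2]
  constructor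
  · rintro ⟨h1, h2⟩
    have h1' : (val ζ : ℝ) * 2 ^ t ≤ (b : ℝ) * 2 ^ ζ.length + 2 ^ t := by exact_mod_cast h1
    have h2' : (b : ℝ) * 2 ^ ζ.length ≤ ((val ζ : ℝ) + 2) * 2 ^ t := by exact_mod_cast h2
    exact ⟨by linarith, h2'⟩
  · rintro ⟨h1, h2⟩
    have h1' : (val ζ : ℝ) * 2 ^ t ≤ (b : ℝ) * 2 ^ ζ.length + 2 ^ t := by linarith
    exact ⟨by exact_mod_cast h1', by exact_mod_cast h2⟩

/-! ### The search -/

theorem cands_prefix {m t : ℕ} (h : m ≤ t) : cands m <+: cands t := by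
  obtain ⟨k, rfl⟩ := Nat.exists_eq_add_of_le h
  unfold cands
  rw [List.range_add, List.filterMap_append]
  exact List.prefix_append _ _

theorem srch_some {σ : List Bool} {t b : ℕ} {F : Frame} {ζ : List Bool}
    (h : srch D σ t b F = some ζ) : ζ ∈ cands t ∧ tst D σ t b F ζ := by
  unfold srch at h
  obtain ⟨h1, h2⟩ := List.getElem?_eq_some_iff.1 h
  refine ⟨h2 ▸ List.getElem_mem _, ?_⟩
  have := List.findIdx_getElem (w := h1)
  rw [h2] at this
  exact of_decide_eq_true this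

theorem srch_of_tst {σ : List Bool} {t b : ℕ} {F : Frame} {ζ : List Bool}
    (h1 : encode ζ < t) (h2 : tst D σ t b F ζ) :
    ∃ ζ', srch D σ t b F = some ζ' ∧ ζ' ∈ cands (encode ζ + 1) := by
  have hpre : cands (encode ζ + 1) <+: cands t := cands_prefix h1
  obtain ⟨j, hj, hj2⟩ := List.mem_iff_getElem.1 (mem_cands.2 (Nat.lt_succ_self (encode ζ)))
  have hj' : j < (cands t).length := lt_of_lt_of_le hj hpre.length_le
  have e1 : (cands t)[j] = ζ := by
    rw [← hj2]; exact (List.IsPrefix.getElem hpre hj).symm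
  set i := (cands t).findIdx fun ζ => decide (tst D σ t b F ζ) with hi
  have h3 : i ≤ j := by
    by_contra hc
    push Not at hc
    have := List.not_of_lt_findIdx (p := fun ζ => decide (tst D σ t b F ζ)) (xs := cands t)
      (i := j) hc
    rw [e1] at this
    simp [h2] at this
  have hi1 : i < (cands t).length := lt_of_le_of_lt h3 hj'
  refine ⟨(cands t)[i], ?_, ?_⟩
  · unfold srch
    exact List.getElem?_eq_getElem hi1
  · have hi2 : i < (cands (encode ζ + 1)).length := lt_of_le_of_lt h3 hj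
    rw [← List.IsPrefix.getElem hpre hi2]
    exact List.getElem_mem _

/-! ### The amount pushed -/

/-- the amount pushed before time `t` -/
noncomputable def yr (σ : List Bool) (t : ℕ) : ℝ := (St D σ t).1 / 2 ^ t

/-- size of the push at time `t` -/
noncomputable def pw (σ : List Bool) (t : ℕ) : ℝ := (push D σ t).elim 0 fun n => (1 / 2) ^ n

theorem yr_succ (σ : List Bool) (t : ℕ) : yr D σ (t + 1) = yr D σ t + pw D σ t := by
  have key : ∀ a : ℕ, ((2 * a : ℕ) : ℝ) / 2 ^ (t + 1) = (a : ℝ) / 2 ^ t := by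
    intro a; push_cast; rw [pow_succ]; field_simp
  unfold yr pw
  cases stepCase D σ t with
  | drop L0 F L1 hL hF h1 hS hp => rw [hS, hp]; simp only [key, Option.elim_none, add_zero]
  | nil hL hS hp => rw [hS, hp]; simp only [key, Option.elim_none, add_zero]
  | pop F L1 hL hr hc hS hp => rw [hS, hp]; simp only [key, Option.elim_none, add_zero]
  | wait F L1 hL hr hc hs hS hp => rw [hS, hp]; simp only [key, Option.elim_none, add_zero]
  | create F L1 ζ hL hr hc hs hl hS hp => rw [hS, hp]; simp only [key, Option.elim_none, add_zero]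
  | pushed F L1 ζ hL hr hc hs hl hS hp =>
    rw [hS, hp]
    have h3 := (srch_some D hs).2.2.2
    have e1 : (2 : ℝ) ^ t = 2 ^ (t - subn σ F ζ.length) * 2 ^ (subn σ F ζ.length) := by
      rw [← pow_add]; congr 1; omega
    rw [key]
    push_cast
    simp only [Option.elim_some]
    rw [add_div, add_right_inj, div_pow, one_pow, e1]
    field_simp

theorem pw_nonneg (σ : List Bool) (t : ℕ) : 0 ≤ pw D σ t := by
  unfold pw
  cases push D σ t with
  | none => simp
  | some n => simp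

theorem yr_mono (σ : List Bool) : Monotone (yr D σ) :=
  monotone_nat_of_le_succ fun t => by rw [yr_succ]; linarith [pw_nonneg D σ t]

theorem yr_eq_sum (σ : List Bool) (t : ℕ) : yr D σ t = ∑ i ∈ Finset.range t, pw D σ i := by
  induction t with
  | zero => simp [yr, St]
  | succ t ih => rw [yr_succ, Finset.sum_range_succ, ih]

theorem yr_nonneg (σ : List Bool) (t : ℕ) : 0 ≤ yr D σ t := by
  unfold yr; positivity

/-- the bookkeeping invariant -/
def YI (σ : List Bool) : ℕ → List Frame → Prop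
  | _, [] => True
  | t, F :: L => Fs F ≤ t ∧ (Fy F : ℝ) / 2 ^ Fs F = yr D σ (Fs F) ∧
      yr D σ t - yr D σ (Fs F) ≤ 3 / 2 * (1 / 2) ^ Fn F ∧
      (match L with
        | [] => F = topF σ
        | P :: _ => yr D σ (Fs F) - yr D σ (Fs P) ≤ (1 / 2) ^ Fn P ∧ Fn P + 2 ≤ Fn F ∧
            Fb F = BO D σ (Fs F) + (St D σ (Fs F)).1) ∧ YI σ (Fs F) L

variable {D}

theorem YI.mono_of_eq {σ : List Bool} {t t' : ℕ} {L : List Frame} (h : YI D σ t L) (htt : t ≤ t')
    (hy : yr D σ t' = yr D σ t) : YI D σ t' L := by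
  cases L with
  | nil => trivial
  | cons F L =>
    obtain ⟨h1, h2, h3, h4, h5⟩ := h
    exact ⟨h1.trans htt, h2, by rw [hy]; exact h3, h4, h5⟩

/-- all frames in the stack satisfy the bound -/
theorem YI.tail {σ : List Bool} {t : ℕ} {F : Frame} {L : List Frame} (h : YI D σ t (F :: L)) :
    YI D σ t L := by
  obtain ⟨h1, h2, h3, h4, h5⟩ := h
  cases L with
  | nil => trivial
  | cons P L =>
    obtain ⟨k1, k2, k3, k4, k5⟩ := h5
    refine ⟨k1.trans h1, k2, ?_, k4, k5⟩
    have e : (1 / 2 : ℝ) ^ Fn F ≤ (1 / 2) ^ (Fn P + 2) :=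
      pow_le_pow_of_le_one (by norm_num) (by norm_num) h4.2.1
    rw [pow_add] at e
    have e2 : (0 : ℝ) < (1 / 2) ^ Fn P := by positivity
    have := h4.1
    norm_num at e
    linarith

theorem YI.suffix {σ : List Bool} {t : ℕ} {L0 L : List Frame} (h : YI D σ t (L0 ++ L)) :
    YI D σ t L := by
  induction L0 with
  | nil => exact h
  | cons F L0 ih => exact ih (YI.tail h)

theorem subn_ge (σ : List Bool) (F : Frame) (l : ℕ) : Fn F + 8 ≤ subn σ F l := by
  unfold subn ee NN; omega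

theorem yI (σ : List Bool) (t : ℕ) : YI D σ t (St D σ t).2 ∧
    yr D σ t ≤ 3 / 2 * (1 / 2) ^ NN σ ∧ ∀ F, (St D σ t).2.getLast? = some F → F = topF σ := by
  have htop : yr D σ 0 = 0 := by simp [yr, St]
  induction t with
  | zero =>
    refine ⟨?_, ?_, ?_⟩
    · change YI D σ 0 [topF σ]
      refine ⟨le_refl _, ?_, ?_, rfl, trivial⟩
      · change ((0 : ℕ) : ℝ) / 2 ^ 0 = yr D σ 0
        rw [htop]; simp
      · change yr D σ 0 - yr D σ 0 ≤ _
        simp
    · rw [htop]; positivity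
    · intro F hF
      simp only [St, List.getLast?_singleton, Option.some.injEq] at hF
      exact hF.symm
  | succ t ih =>
    obtain ⟨ih1, ih2, ih3⟩ := ih
    have hyn : push D σ t = none → yr D σ (t + 1) = yr D σ t := by
      intro h; rw [yr_succ]; simp [pw, h]
    cases stepCase D σ t with
    | drop L0 F L1 hL hF h1 hS hp =>
      have hy := hyn hp
      rw [hS, hy]
      rw [hL] at ih1 ih3
      refine ⟨((YI.suffix ih1).tail).mono_of_eq (Nat.le_succ t) hy, ih2, ?_⟩
      intro F' hF'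
      apply ih3
      simp only at hF'
      rw [List.getLast?_append, List.getLast?_cons]
      simp [hF']
    | nil hL hS hp =>
      have hy := hyn hp
      rw [hS, hy]
      exact ⟨trivial, ih2, by simp⟩
    | pop F L1 hL hr hc hS hp =>
      have hy := hyn hp
      rw [hS, hy]
      rw [hL] at ih1 ih3
      refine ⟨ih1.tail.mono_of_eq (Nat.le_succ t) hy, ih2, ?_⟩
      intro F' hF'
      apply ih3
      simp only at hF'
      rw [List.getLast?_cons]
      simp [hF']
    | wait F L1 hL hr hc hs hS hp =>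
      have hy := hyn hp
      rw [hS, hy]
      exact ⟨ih1.mono_of_eq (Nat.le_succ t) hy, ih2, ih3⟩
    | pushed F L1 ζ hL hr hc hs hl hS hp =>
      have hs' : Fs F ≤ t := by rw [hL] at ih1; exact ih1.1
      have hY : yr D σ (t + 1) = yr D σ t + (1 / 2) ^ subn σ F ζ.length := by
        rw [yr_succ]; simp [pw, hp]
      have hsm : (1 / 2 : ℝ) ^ subn σ F ζ.length ≤ 1 / 2 * (1 / 2) ^ Fn F := by
        have := subn_ge σ F ζ.length
        calc (1 / 2 : ℝ) ^ subn σ F ζ.length ≤ (1 / 2) ^ (Fn F + 1) :=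
              pow_le_pow_of_le_one (by norm_num) (by norm_num) (by omega)
          _ = _ := by rw [pow_succ]; ring
      have hnc : yr D σ t - yr D σ (Fs F) < (1 / 2) ^ Fn F := by
        rw [compl_iff hs'] at hc
        push Not at hc
        rw [hL] at ih1
        rw [ih1.2.1] at hc
        exact hc
      have h1 : YI D σ (t + 1) (St D σ t).2 := by
        rw [hL] at ih1 ⊢
        obtain ⟨k1, k2, k3, k4, k5⟩ := ih1
        exact ⟨k1.trans (Nat.le_succ t), k2, by rw [hY]; linarith, k4, k5⟩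
      rw [hS]
      refine ⟨h1, ?_, ih3⟩
      -- bound for the top frame
      have hne : (St D σ t).2 ≠ [] := by rw [hL]; simp
      have h2 := ih3 _ (List.getLast?_eq_some_getLast hne)
      have h3 : YI D σ (t + 1) [(St D σ t).2.getLast hne] := by
        apply YI.suffix (L0 := (St D σ t).2.dropLast)
        rw [List.dropLast_append_getLast hne]
        exact h1
      rw [h2] at h3
      have h4 := h3.2.2.1
      have e1 : Fs (topF σ) = 0 := rfl
      have e2 : Fn (topF σ) = NN σ := rfl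
      rw [e1, e2, htop] at h4
      linarith
    | create F L1 ζ hL hr hc hs hl hS hp =>
      have hy := hyn hp
      have hs' : Fs F ≤ t := by rw [hL] at ih1; exact ih1.1
      have hnc : yr D σ t - yr D σ (Fs F) < (1 / 2) ^ Fn F := by
        rw [compl_iff hs'] at hc
        push Not at hc
        rw [hL] at ih1
        rw [ih1.2.1] at hc
        exact hc
      rw [hS, hy]
      refine ⟨⟨Nat.le_succ t, rfl, ?_, ?_, ih1⟩, ih2, ?_⟩
      · change yr D σ (t + 1) - yr D σ t ≤ _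
        rw [hy, sub_self]; positivity
      · rw [hL]
        refine ⟨?_, ?_, rfl⟩
        · change yr D σ t - yr D σ (Fs F) ≤ _
          exact hnc.le
        · change Fn F + 2 ≤ subn σ F ζ.length
          have := subn_ge σ F ζ.length
          omega
      · intro F' hF'
        apply ih3
        rw [hL] at hF' ⊢
        simpa [List.getLast?_cons_cons] using hF'

theorem yr_le (σ : List Bool) (t : ℕ) : yr D σ t ≤ (1 / 2) ^ (piS σ).length := by
  have h := (yI (D := D) σ t).2.1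
  unfold NN at h
  rw [pow_succ] at h
  have : (0 : ℝ) < (1 / 2) ^ (piS σ).length := by positivity
  linarith

end Pool.Agent.H620R2.Om
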