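import Pool.Agent.H620R2.OmInv

set_option autoImplicit false

namespace Pool.Agent.H620R2.Om

open Pool.Agent.Helper227 Encodable Classical Filter Topology

variable {D : Data} {σ : List Bool}

theorem suffix_persist {t : ℕ} {A : List Frame} (h : A <:+ (St D σ t).2)
    (hl : A.length ≤ (St D σ (t + 1)).2.length) : A <:+ (St D σ (t + 1)).2 := by
  cases stepCase D σ t with
  | drop L0 F L1 hL hF h1 hS hp =>
    rw [hS] at hl ⊢
    rw [hL] at h
    refine List.suffix_of_suffix_length_le h ?_ hl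
    exact (List.suffix_cons F L1).trans (List.suffix_append L0 (F :: L1))
  | nil hL hS hp => rw [hL] at h; rw [hS]; exact h
  | pop F L1 hL hr hc hS hp =>
    rw [hS] at hl ⊢
    rw [hL] at h
    exact List.suffix_of_suffix_length_le h (List.suffix_cons F L1) hl
  | wait F L1 hL hr hc hs hS hp => rw [hS]; exact h
  | pushed F L1 ζ hL hr hc hs hl' hS hp => rw [hS]; exact h
  | create F L1 ζ hL hr hc hs hl' hS hp => rw [hS]; exact h.trans (List.suffix_cons _ _)

theorem suffix_persist_of {t1 : ℕ} {A : List Frame} (h : A <:+ (St D σ t1).2) {u : ℕ}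
    (htu : t1 ≤ u) (hl : ∀ t, t1 < t → t ≤ u → A.length ≤ (St D σ t).2.length) :
    A <:+ (St D σ u).2 := by
  induction htu with
  | refl => exact h
  | @step m hm ih =>
    exact suffix_persist (ih fun t h1 h2 => hl t h1 (h2.trans (Nat.le_succ m)))
      (hl (m + 1) (Nat.lt_succ_of_le hm) (le_refl _))

/-- one return to the stack `F :: A` -/
theorem one_return {t0 t N1 l1 : ℕ} {F : Frame} {A : List Frame}
    (hYI : ∀ t, YI D σ t (St D σ t).2)
    (ht : t0 ≤ t) (hlen : ∀ t, t0 ≤ t → A.length + 1 ≤ (St D σ t).2.length)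
    (hfr : ∃ᶠ t in atTop, (St D σ t).2.length = A.length + 1)
    (hcauchy : ∀ s u, t0 ≤ s → t0 ≤ u → |br D σ u - br D σ s| ≤ (1 / 2) ^ l1)
    (hsr : ∀ t, t0 ≤ t → ∃ ζ, srch D σ t (BO D σ t + (St D σ t).1) F = some ζ ∧
      ζ.length ≤ l1 ∧ subn σ F ζ.length ≤ N1)
    (hA : (St D σ t).2 = F :: A) :
    ∃ u, t < u ∧ (St D σ u).2 = F :: A ∧ yr D σ t + (1 / 2) ^ N1 ≤ yr D σ u := by
  -- the step at `t`
  cases stepCase D σ t with
  | drop L0 F' L1 hL hF h1 hS hp =>
    exfalso
    have h2 := hlen (t + 1) (by omega)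
    rw [hS] at h2
    have h3 : (L0 ++ F' :: L1).length = A.length + 1 := by rw [← hL, hA]; rfl
    simp only [List.length_append, List.length_cons] at h3 h2
    omega
  | nil hL hS hp => rw [hL] at hA; cases hA
  | pop F' L1 hL hr hc hS hp =>
    exfalso
    have h2 := hlen (t + 1) (by omega)
    rw [hS] at h2
    rw [hA] at hL
    simp only [List.cons.injEq] at hL
    rw [← hL.2] at h2
    simp only at h2
    omega
  | wait F' L1 hL hr hc hs hS hp =>
    exfalso
    rw [hA] at hL
    simp only [List.cons.injEq] at hL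
    obtain ⟨ζ, h1, -⟩ := hsr t ht
    rw [← hL.1, h1] at hs
    cases hs
  | pushed F' L1 ζ hL hr hc hs hl' hS hp =>
    rw [hA] at hL
    simp only [List.cons.injEq] at hL
    obtain ⟨ζ', h1, h2, h3⟩ := hsr t ht
    rw [← hL.1] at hs hp
    rw [hs] at h1
    simp only [Option.some.injEq] at h1
    refine ⟨t + 1, Nat.lt_succ_self t, by rw [hS]; exact hA, ?_⟩
    rw [yr_succ]
    have : pw D σ t = (1 / 2) ^ subn σ F ζ.length := by simp [pw, hp]
    rw [this, h1]
    have := pow_le_pow_of_le_one (by norm_num : (0 : ℝ) ≤ 1 / 2) (by norm_num) h3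
    linarith
  | create F' L1 ζ hL hr hc hs hl' hS hp =>
    rw [hA] at hL hS
    simp only [List.cons.injEq] at hL
    obtain ⟨ζ', h1, h2, h3⟩ := hsr t ht
    rw [← hL.1] at hs hS
    rw [hs] at h1
    simp only [Option.some.injEq] at h1
    rw [← h1] at h2 h3
    set F1 : Frame := (t, subn σ F ζ.length, ζ.length, (St D σ t).1, BO D σ t + (St D σ t).1)
      with hF1
    have hS2 : (St D σ (t + 1)).2 = F1 :: F :: A := by rw [hS]
    -- the next time of return
    have hex : ∃ u, t < u ∧ (St D σ u).2.length = A.length + 1 := by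
      obtain ⟨u, h4, h5⟩ := (frequently_atTop.1 hfr) (t + 1)
      exact ⟨u, h4, h5⟩
    obtain ⟨hu1, hu2⟩ := Nat.find_spec hex
    have hmin : ∀ m, m < Nat.find hex → ¬ (t < m ∧ (St D σ m).2.length = A.length + 1) :=
      fun m hm => Nat.find_min hex hm
    set u := Nat.find hex with hu
    have hu3 : u ≠ t + 1 := by
      intro h
      rw [h, hS2] at hu2
      simp at hu2
    have hsuf : ∀ m, t + 1 ≤ m → m < u → (F1 :: F :: A) <:+ (St D σ m).2 := by
      intro m hm1 hm2
      refine suffix_persist_of (t1 := t + 1) (by rw [hS2]) hm1 fun t' ht1 ht2 => ?_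
      have h5 := hlen t' (by omega)
      have h6 : (St D σ t').2.length ≠ A.length + 1 := fun h => hmin t' (by omega) ⟨by omega, h⟩
      simp only [List.length_cons]
      omega
    obtain ⟨v, hv⟩ : ∃ v, u = v + 1 := ⟨u - 1, by omega⟩
    have hv1 : t + 1 ≤ v := by omega
    have hsv := hsuf v hv1 (by omega)
    have hlenv : A.length + 2 ≤ (St D σ v).2.length := by
      have := hsv.length_le
      simp only [List.length_cons] at this
      omega
    rw [hv] at hu2
    -- the step at `v`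
    have hYv := hYI v
    have hFs : Fs F1 = t := rfl
    have hFb : (Fb F1 : ℝ) / 2 ^ Fs F1 = br D σ t := rfl
    cases stepCase D σ v with
    | drop L0 F2 L2 hL2 hF2 h12 hS' hp' =>
      exfalso
      rw [hS'] at hu2
      simp only at hu2
      rw [hL2] at hsv
      have e1 : (F1 :: F :: A) <:+ (F2 :: L2) := by
        refine List.suffix_of_suffix_length_le hsv (List.suffix_append _ _) ?_
        simp only [List.length_cons]; omega
      have e2 : F1 :: F :: A = F2 :: L2 := by
        refine e1.eq_of_length ?_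
        simp only [List.length_cons]; omega
      simp only [List.cons.injEq] at e2
      rw [← e2.1, regOk_iff (by rw [hFs]; omega), hFb] at hF2
      have h7 : ((BO D σ v + (St D σ v).1 : ℕ) : ℝ) / 2 ^ v = br D σ v := rfl
      rw [h7] at hF2
      apply hF2
      refine (hcauchy t v ht (by omega)).trans ?_
      exact pow_le_pow_of_le_one (by norm_num) (by norm_num) h2
    | nil hL2 hS' hp' =>
      exfalso
      rw [hL2] at hlenv
      simp at hlenv
    | pop F2 L2 hL2 hr2 hc2 hS' hp' =>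
      rw [hS'] at hu2
      simp only at hu2
      rw [hL2] at hsv hYv
      have e2 : F1 :: F :: A = F2 :: L2 := by
        refine hsv.eq_of_length ?_
        simp only [List.length_cons]; omega
      simp only [List.cons.injEq] at e2
      refine ⟨u, by omega, ?_, ?_⟩
      · rw [hv, hS', e2.2]
      · rw [not_compl_facts hYv, ← e2.1, hFs] at hc2
        have h8 : yr D σ v ≤ yr D σ u := yr_mono D σ (by omega)
        have h9 : (1 / 2 : ℝ) ^ N1 ≤ (1 / 2) ^ Fn F1 :=
          pow_le_pow_of_le_one (by norm_num) (by norm_num) h3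
        linarith
    | wait F2 L2 hL2 hr2 hc2 hs2 hS' hp' =>
      exfalso
      rw [hS'] at hu2
      simp only at hu2
      omega
    | pushed F2 L2 ζ2 hL2 hr2 hc2 hs2 hl2 hS' hp' =>
      exfalso
      rw [hS'] at hu2
      simp only at hu2
      omega
    | create F2 L2 ζ2 hL2 hr2 hc2 hs2 hl2 hS' hp' =>
      exfalso
      rw [hS'] at hu2
      simp only [List.length_cons] at hu2
      omega

theorem no_run (hG : IsTest D.G) {U : List Bool →. List Bool}
    (hU : IsMachine U) (hQ : ∀ p z t, D.Q (p, z) t → z ∈ U p) {Ω : ℝ}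
    (hb : Tendsto (br D σ) atTop (𝓝 Ω))
    (hZ : ∀ j, ∃ ζ, D.G (j, ζ) ∧ (val ζ : ℝ) / 2 ^ ζ.length ≤ Ω ∧
      Ω ≤ ((val ζ : ℝ) + 1) / 2 ^ ζ.length) : False := by
  have hne : ∀ t, (St D σ t).2 ≠ [] := fun t => (main_inv hG hU hQ t t (le_refl t)).1
  have hKK : ∀ t, (St D σ t).2.length ≤ KK σ := by
    intro t
    have h := (main_inv hG (σ := σ) hU hQ t t (le_refl t)).2
    rcases hL : (St D σ t).2 with _ | ⟨F, L⟩
    · simp
    · rw [hL] at h
      exact h.2.2.1
  -- minimal length attained frequently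
  have hex : ∃ l, ∃ᶠ t in atTop, (St D σ t).2.length = l := by
    by_contra hcon
    push Not at hcon
    have h1 : ∀ l ∈ Finset.range (KK σ + 1), ∀ᶠ t in atTop, (St D σ t).2.length ≠ l :=
      fun l _ => hcon l
    have h2 := (Finset.eventually_all _).2 h1
    obtain ⟨t, ht⟩ := h2.exists
    exact ht _ (Finset.mem_range.2 (Nat.lt_succ_of_le (hKK t))) rfl
  have hfr := Nat.find_spec hex
  have hmin : ∀ᶠ t in atTop, Nat.find hex ≤ (St D σ t).2.length := by
    have h1 : ∀ l ∈ Finset.range (Nat.find hex), ∀ᶠ t in atTop, (St D σ t).2.length ≠ l :=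
      fun l hl => not_frequently.1 (Nat.find_min hex (Finset.mem_range.1 hl))
    filter_upwards [(Finset.eventually_all _).2 h1] with t ht
    by_contra hc
    push Not at hc
    exact ht _ (Finset.mem_range.2 hc) rfl
  set ℓ := Nat.find hex with hℓ
  obtain ⟨t1, ht1⟩ := eventually_atTop.1 hmin
  obtain ⟨t1', ht1', hlen1⟩ := (frequently_atTop.1 hfr) t1
  -- the persistent suffix
  rcases hL : (St D σ t1').2 with _ | ⟨F, A⟩
  · exact hne _ hL
  have hlA : ℓ = A.length + 1 := by rw [← hlen1, hL]; rfl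
  have hpers : ∀ t, t1' ≤ t → (St D σ t).2.length = A.length + 1 → (St D σ t).2 = F :: A := by
    intro t ht h
    have h1 : (F :: A) <:+ (St D σ t).2 := by
      refine suffix_persist_of (t1 := t1') (by rw [hL]) ht fun t' h2 _ => ?_
      have := ht1 t' (by omega)
      simp only [List.length_cons]
      omega
    exact (h1.eq_of_length (by simp only [List.length_cons]; omega)).symm
  -- the test string
  obtain ⟨ζ0, z1, z2, z3⟩ := hZ (Fn F + Fs F + 7)
  set l1 := (cands (encode ζ0 + 1)).foldr (fun ζ m => max ζ.length m) 0 with hl1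
  have hl1' : ∀ ζ ∈ cands (encode ζ0 + 1), ζ.length ≤ l1 := by
    rw [hl1]
    generalize cands (encode ζ0 + 1) = C
    intro ζ hζ
    induction C with
    | nil => cases hζ
    | cons a C ih =>
      simp only [List.foldr_cons]
      rcases List.mem_cons.1 hζ with rfl | h
      · exact le_max_left _ _
      · exact (ih h).trans (le_max_right _ _)
  set N1 := subn σ F l1 with hN1
  have p1 : (0 : ℝ) < 1 / 2 ^ ζ0.length := by positivity
  have hclose : ∀ᶠ t in atTop, |br D σ t - Ω| < 1 / 2 ^ ζ0.length := by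
    have := (Metric.tendsto_atTop.1 hb) _ p1
    obtain ⟨N, hN⟩ := this
    exact eventually_atTop.2 ⟨N, fun t ht => by simpa [Real.dist_eq] using hN t ht⟩
  have hc2 : ∃ N, ∀ s u, N ≤ s → N ≤ u → |br D σ u - br D σ s| ≤ (1 / 2) ^ l1 := by
    have hp : (0 : ℝ) < (1 / 2) ^ l1 := by positivity
    obtain ⟨N, hN⟩ := Metric.cauchySeq_iff.1 hb.cauchySeq _ hp
    refine ⟨N, fun s u hs hu => ?_⟩
    have := hN u hu s hs
    rw [Real.dist_eq] at this
    exact this.le
  obtain ⟨N2, hN2⟩ := hc2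
  obtain ⟨N3, hN3⟩ := eventually_atTop.1 hclose
  obtain ⟨t0, ht0⟩ : ∃ t0, t0 = max (max t1' N2) (max N3 (max (subn σ F ζ0.length) (encode ζ0 + 1))) :=
    ⟨_, rfl⟩
  have b1 : t1' ≤ t0 := by rw [ht0]; exact (le_max_left _ _).trans (le_max_left _ _)
  have b2 : N2 ≤ t0 := by rw [ht0]; exact (le_max_right _ _).trans (le_max_left _ _)
  have b3 : N3 ≤ t0 := by rw [ht0]; exact (le_max_left _ _).trans (le_max_right _ _)
  have b4 : subn σ F ζ0.length ≤ t0 := by
    rw [ht0]
    exact ((le_max_left _ _).trans (le_max_right _ _)).trans (le_max_right _ _)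
  have b5 : encode ζ0 + 1 ≤ t0 := by
    rw [ht0]
    exact ((le_max_right _ _).trans (le_max_right _ _)).trans (le_max_right _ _)
  have hsr : ∀ t, t0 ≤ t → ∃ ζ, srch D σ t (BO D σ t + (St D σ t).1) F = some ζ ∧
      ζ.length ≤ l1 ∧ subn σ F ζ.length ≤ N1 := by
    intro t ht
    have hbr : ((BO D σ t + (St D σ t).1 : ℕ) : ℝ) / 2 ^ t = br D σ t := rfl
    have htst : tst D σ t (BO D σ t + (St D σ t).1) F ζ0 := by
      refine ⟨z1, ?_, b4.trans ht⟩
      rw [close_iff, hbr]
      have h1 := abs_lt.1 (hN3 t (b3.trans ht))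
      have e1 : ((val ζ0 : ℝ) - 1) / 2 ^ ζ0.length = (val ζ0 : ℝ) / 2 ^ ζ0.length -
          1 / 2 ^ ζ0.length := by ring
      have e2 : ((val ζ0 : ℝ) + 2) / 2 ^ ζ0.length = ((val ζ0 : ℝ) + 1) / 2 ^ ζ0.length +
          1 / 2 ^ ζ0.length := by ring
      constructor <;> linarith [h1.1, h1.2]
    obtain ⟨ζ, h1, h2⟩ := srch_of_tst D (σ := σ) (t := t) (b := BO D σ t + (St D σ t).1)
      (F := F) (ζ := ζ0) (by omega) htst
    refine ⟨ζ, h1, hl1' ζ h2, ?_⟩
    have := hl1' ζ h2
    rw [hN1]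
    unfold subn
    omega
  have hone : ∀ t, t0 ≤ t → (St D σ t).2 = F :: A →
      ∃ u, t < u ∧ (St D σ u).2 = F :: A ∧ yr D σ t + (1 / 2) ^ N1 ≤ yr D σ u := by
    intro t ht hA
    refine one_return (t0 := t0) (l1 := l1) (fun t => (yI (D := D) σ t).1) ht ?_ ?_ ?_ hsr hA
    · intro t ht
      have := ht1 t (by omega)
      omega
    · rw [← hlA]; exact hfr
    · intro s u hs hu
      exact hN2 s u (b2.trans hs) (b2.trans hu)
  obtain ⟨s0, hs0, hs1⟩ := (frequently_atTop.1 hfr) t0
  have hs2 : (St D σ s0).2 = F :: A := hpers s0 (by omega) (by omega)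
  have hiter : ∀ n : ℕ, ∃ u, t0 ≤ u ∧ (St D σ u).2 = F :: A ∧ (n : ℝ) * (1 / 2) ^ N1 ≤ yr D σ u := by
    intro n
    induction n with
    | zero => exact ⟨s0, hs0, hs2, by simpa using yr_nonneg D σ s0⟩
    | succ n ih =>
      obtain ⟨u, h1, h2, h3⟩ := ih
      obtain ⟨u', h4, h5, h6⟩ := hone u h1 h2
      refine ⟨u', by omega, h5, ?_⟩
      push_cast
      linarith
  obtain ⟨u, -, -, hu⟩ := hiter (2 ^ N1 + 1)
  have h1 := yr_le (D := D) σ u
  have h2 : (1 / 2 : ℝ) ^ (piS σ).length ≤ 1 := pow_le_one₀ (by norm_num) (by norm_num)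
  have h3 : ((2 ^ N1 + 1 : ℕ) : ℝ) * (1 / 2) ^ N1 = 1 + (1 / 2) ^ N1 := by
    push_cast
    rw [add_mul, ← mul_pow]
    norm_num
  rw [h3] at hu
  have h4 : (0 : ℝ) < (1 / 2) ^ N1 := by positivity
  linarith

end Pool.Agent.H620R2.Om
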