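import Pool.Agent.H620R2.OmConv
import Pool.Agent.H620R2.OmTerm
import Pool.Agent.Helper227.CD.Pos

set_option autoImplicit false

namespace Pool.Agent.H620R2.Om

open Pool.Agent.Helper227 Encodable Filter Topology MeasureTheory
open scoped ENNReal

/-- A sequence that is not random is captured by a primitive recursive test. -/
theorem exists_test {X : ℕ → Bool} (hX : ¬ MLRandom X) :
    ∃ G : ℕ × List Bool → Prop, PrimrecPred G ∧ IsTest G ∧ ∀ n, ∃ t, G (n, pre X t) := by
  classical
  unfold MLRandom at hX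
  push Not at hX
  obtain ⟨W, hW, hm, hX⟩ := hX
  obtain ⟨Q, hQ, mQ, eQ⟩ := S1.of_re hW
  let I : ℕ × List Bool → Prop := fun x => ∃ j < x.2.length + 1, Q (x.1, x.2.take j) x.2.length
  have hI : PrimrecPred I := by
    refine PP.ex_lt (α := ℕ × List Bool) (f := fun x => x.2.length + 1)
      (p := fun x j => Q (x.1, x.2.take j) x.2.length) ?_
      (Primrec.succ.comp (Primrec.list_length.comp Primrec.snd))
    exact hQ.comp ((Primrec.fst.comp Primrec.fst).pair (Primrec.list_take.comp Primrec.snd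
      (Primrec.snd.comp Primrec.fst))) (Primrec.list_length.comp (Primrec.snd.comp Primrec.fst))
  let G : ℕ × List Bool → Prop := fun x => I x ∧ ∀ i < x.2.length, ¬ I (x.1, x.2.take i)
  have hG : PrimrecPred G := by
    refine PrimrecPred.and hI ?_
    refine PP.all_lt (α := ℕ × List Bool) (f := fun x => x.2.length)
      (p := fun x i => ¬ I (x.1, x.2.take i)) ?_ (Primrec.list_length.comp Primrec.snd)
    refine PrimrecPred.not (hI.comp ((Primrec.fst.comp Primrec.fst).pair
      (Primrec.list_take.comp Primrec.snd (Primrec.snd.comp Primrec.fst))))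
  have hGsub : ∀ n ζ, G (n, ζ) → cyl ζ ⊆ ⋃ σ ∈ {σ : List Bool | (n, σ) ∈ W}, cyl σ := by
    intro n ζ h Y hY
    obtain ⟨⟨j, hj, h1⟩, -⟩ := h
    simp only [Set.mem_iUnion, Set.mem_ofPred_eq, exists_prop]
    exact ⟨ζ.take j, (eQ _).2 ⟨_, h1⟩, cyl_subset (List.take_prefix j ζ) hY⟩
  have hGpf : ∀ n ζ ζ', G (n, ζ) → G (n, ζ') → ζ <+: ζ' → ζ = ζ' := by
    intro n ζ ζ' h1 h2 h3
    by_contra hne
    have hlt : ζ.length < ζ'.length := by
      rcases h3.length_le.lt_or_eq with h | h
      · exact h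
      · exact absurd (h3.eq_of_length h) hne
    have := h2.2 ζ.length hlt
    simp only at this
    rw [← List.prefix_iff_eq_take.1 h3] at this
    exact this h1.1
  have hGm : ∀ n, ∑' ζ : {ζ // G (n, ζ)}, (1 / 2 : ℝ≥0∞) ^ ζ.1.length ≤ (1 / 2) ^ n := by
    intro n
    refine le_trans ?_ (hm n)
    have h1 : ∀ ζ : {ζ // G (n, ζ)}, (1 / 2 : ℝ≥0∞) ^ ζ.1.length = lam (cyl ζ.1) :=
      fun ζ => (lam_cyl _).symm
    simp only [h1]
    rw [← measure_iUnion]
    · exact measure_mono (Set.iUnion_subset fun ζ => hGsub n ζ.1 ζ.2)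
    · intro ζ ζ' hne
      rw [Function.onFun, Set.disjoint_left]
      intro Y h3 h4
      apply hne
      apply Subtype.ext
      rw [mem_cyl_iff] at h3 h4
      rcases Nat.le_total ζ.1.length ζ'.1.length with h | h
      · refine hGpf n _ _ ζ.2 ζ'.2 ?_
        rw [← h3, ← h4]
        exact pre_prefix Y h
      · refine (hGpf n _ _ ζ'.2 ζ.2 ?_).symm
        rw [← h3, ← h4]
        exact pre_prefix Y h
    · exact fun ζ => measurableSet_cyl ζ.1
  have hGX : ∀ n, ∃ t, G (n, pre X t) := by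
    intro n
    obtain ⟨σ, h1, h2⟩ := hX n
    obtain ⟨s, hs⟩ := (eQ _).1 h1
    have h3 : ∃ t, I (n, pre X t) := by
      refine ⟨σ.length + s, σ.length, by simp, ?_⟩
      simp only [length_pre]
      rw [take_pre X _ _ (by omega), mem_cyl_iff.1 h2]
      exact mQ _ _ _ (by omega) hs
    refine ⟨Nat.find h3, Nat.find_spec h3, fun i hi => ?_⟩
    simp only [length_pre] at hi ⊢
    rw [take_pre X _ _ hi.le]
    exact Nat.find_min h3 hi
  exact ⟨G, hG, hGm, hGX⟩

/-- real with binary expansion `Z` -/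
noncomputable def toReal (Z : ℕ → Bool) : ℝ := ∑' n, if Z n then (1 / 2 : ℝ) ^ (n + 1) else 0

theorem summable_bits (Z : ℕ → Bool) : Summable fun n => if Z n then (1 / 2 : ℝ) ^ (n + 1) else 0 := by
  have h : Summable fun n : ℕ => (1 / 2 : ℝ) ^ (n + 1) :=
    (summable_nat_add_iff 1).2 (summable_geometric_of_lt_one (by norm_num) (by norm_num))
  refine Summable.of_nonneg_of_le (fun n => by split_ifs <;> positivity) (fun n => ?_) h
  split_ifs
  · exact le_refl _
  · positivity

theorem val_append (L : List Bool) (b : Bool) : val (L ++ [b]) = 2 * val L + b.toNat := by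
  simp [val, List.foldl_append]

theorem val_pre (Z : ℕ → Bool) (t : ℕ) : (val (pre Z t) : ℝ) / 2 ^ t =
    ∑ i ∈ Finset.range t, if Z i then (1 / 2 : ℝ) ^ (i + 1) else 0 := by
  induction t with
  | zero => simp [pre, val]
  | succ t ih =>
    have e : pre Z (t + 1) = pre Z t ++ [Z t] := by
      simp [pre, List.range_succ]
    rw [Finset.sum_range_succ, ← ih, e, val_append, pow_succ]
    cases Z t
    · simp only [Bool.toNat_false, Bool.false_eq_true, if_false, add_zero]
      push_cast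
      field_simp
    · simp only [Bool.toNat_true, if_true]
      push_cast
      rw [pow_succ, div_pow, one_pow]
      field_simp

theorem toReal_bounds (Z : ℕ → Bool) (t : ℕ) : (val (pre Z t) : ℝ) / 2 ^ (pre Z t).length ≤ toReal Z ∧
    toReal Z ≤ ((val (pre Z t) : ℝ) + 1) / 2 ^ (pre Z t).length := by
  have hl : (pre Z t).length = t := by simp
  rw [hl]
  have h1 := (summable_bits Z).sum_add_tsum_nat_add t
  rw [← val_pre] at h1
  have h2 : 0 ≤ ∑' i, if Z (i + t) then (1 / 2 : ℝ) ^ (i + t + 1) else 0 :=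
    tsum_nonneg fun i => by split_ifs <;> positivity
  have h3 : ∑' i, (if Z (i + t) then (1 / 2 : ℝ) ^ (i + t + 1) else 0) ≤ 1 / 2 ^ t := by
    have e : ∀ i : ℕ, (1 / 2 : ℝ) ^ (i + t + 1) = (1 / 2) ^ (t + 1) * (1 / 2) ^ i := by
      intro i; rw [← pow_add]; congr 1; omega
    have hs : Summable fun i : ℕ => (1 / 2 : ℝ) ^ (i + t + 1) := by
      simp only [e]
      exact (summable_geometric_of_lt_one (by norm_num) (by norm_num)).mul_left _
    have h4 : ∑' i, (if Z (i + t) then (1 / 2 : ℝ) ^ (i + t + 1) else 0) ≤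
        ∑' i : ℕ, (1 / 2 : ℝ) ^ (i + t + 1) := by
      refine Summable.tsum_le_tsum (fun i => ?_) ((summable_nat_add_iff t).2 (summable_bits Z)) hs
      split_ifs
      · exact le_refl _
      · positivity
    refine h4.trans (le_of_eq ?_)
    simp only [e]
    rw [tsum_mul_left, tsum_geometric_of_lt_one (by norm_num) (by norm_num), pow_succ, div_pow,
      one_pow]
    norm_num
    field_simp
  unfold toReal
  constructor
  · linarith
  · rw [add_div]; linarith

theorem exists_expansion {r : ℝ} (h0 : 0 ≤ r) (h1 : r ≤ 1) : ∃ Z, r = toReal Z := by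
  obtain ⟨d, -, hd⟩ := Real.ofDigits_SurjOn (b := 2) (by norm_num) (Set.mem_Icc.2 ⟨h0, h1⟩)
  refine ⟨fun n => decide (d n = 1), ?_⟩
  rw [← hd]
  unfold Real.ofDigits toReal
  refine tsum_congr fun n => ?_
  unfold Real.ofDigitsTerm
  beta_reduce
  generalize d n = x
  fin_cases x <;> simp

/-- The main theorem: every expansion of the restricted halting probability is random. -/
theorem main {U : List Bool →. List Bool} (hU : IsMachine U)
    (hadj : ∀ N : List Bool →. List Bool, IsMachine N → ∃ σ, ∀ p, U (σ ++ p) = N p)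
    {X : Set (List Bool)} (hX : REPred fun z => z ∉ X) (hpos : 0 < Omega U X) {Z : ℕ → Bool}
    (hZ : Omega U X = toReal Z) : MLRandom Z := by
  classical
  by_contra hcon
  obtain ⟨G, hG, hGt, hGZ⟩ := exists_test hcon
  obtain ⟨Q, hQ, mQ, eQ⟩ := s1_graph hU.1
  obtain ⟨R, hR, mR, eR⟩ := S1.of_re hX
  obtain ⟨x0, hx0⟩ : ∃ x0, x0 ∈ X := by
    by_contra hc
    push Not at hc
    have : Omega U X = 0 := by
      unfold Omega
      have : IsEmpty {p : List Bool // ∃ z ∈ X, z ∈ U p} :=
        ⟨fun p => by obtain ⟨z, hz, -⟩ := p.2; exact hc z hz⟩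
      exact tsum_empty
    rw [this] at hpos
    exact lt_irrefl _ hpos
  let D : Data := ⟨Q, R, G, hQ, hR, hG, mQ, mR⟩
  obtain ⟨σ, hσ⟩ := hadj (Mach D x0) (isMachine_Mach D x0)
  have hQ1 : ∀ p z t, D.Q (p, z) t → z ∈ U p := fun p z t h => (eQ (p, z)).2 ⟨t, h⟩
  have hb : Tendsto (br D σ) atTop (𝓝 (Omega U X)) :=
    br_tendsto D σ hU hx0 hQ1 (fun p z h => (eQ (p, z)).1 h) (fun z t h => (eR z).2 ⟨t, h⟩)
      (fun z h => (eR z).1 h) hσ
  refine no_run (D := D) (σ := σ) hGt hU hQ1 hb fun j => ?_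
  obtain ⟨t, ht⟩ := hGZ j
  rw [hZ]
  exact ⟨pre Z t, ht, toReal_bounds Z t⟩

theorem Omega_nonneg (U : List Bool →. List Bool) (X : Set (List Bool)) : 0 ≤ Omega U X :=
  tsum_nonneg fun _ => by positivity

theorem Omega_le_one {U : List Bool →. List Bool} (hU : IsMachine U) (X : Set (List Bool)) :
    Omega U X ≤ 1 := by
  classical
  unfold Omega
  refine Real.tsum_le_of_sum_le (fun _ => by positivity) fun F => ?_
  have := kraft_real hU (F.map (Function.Embedding.subtype _)) fun p hp => by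
    obtain ⟨q, -, rfl⟩ := Finset.mem_map.1 hp
    obtain ⟨z, -, hz⟩ := q.2
    exact Part.dom_iff_mem.2 ⟨z, hz⟩
  rw [Finset.sum_map] at this
  exact this

end Pool.Agent.H620R2.Om
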